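import Pool.Agent.H85R2.PIElem

/-!
Task KAP (first half) of the project MP_ecbc69_al: a ring with a multilinear identity acting
densely on a vector space over a division ring forces the dimension to be bounded.
-/

set_option autoImplicit false

namespace Pool.Agent.H992R2.Kap

open Pool.Agent.H85R2.PI

theorem no_indep {A M Δ : Type*} [Ring A] [AddCommGroup M] [Module A M] [DivisionRing Δ]
    [Module Δ M] (dens : ∀ f : M →ₗ[Δ] M, ∀ s : Finset M, ∃ a : A, ∀ m ∈ s, a • m = f m)
    (D : ℕ) (c : Equiv.Perm (Fin D) → ℤ) (hc : c 1 = 1) (hA : PId A D c)
    (v : Fin (D + 1) → M) (hv : LinearIndependent Δ v) : False := by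
  classical
  have hf : ∀ i : Fin D, ∃ f : M →ₗ[Δ] M,
      ∀ j, f (v j) = if j = i.succ then v i.castSucc else 0 := by
    intro i
    obtain ⟨g, hg⟩ := LinearMap.exists_extend
      ((Module.Basis.span hv).constr ℕ (fun j => if j = i.succ then v i.castSucc else 0))
    refine ⟨g, fun j => ?_⟩
    have h2 := LinearMap.congr_fun hg ((Module.Basis.span hv) j)
    rw [Module.Basis.constr_basis] at h2
    rw [← h2]
    simp
  choose f hf using hf
  have hx : ∀ i : Fin D, ∃ a : A,
      ∀ j, a • v j = if j = i.succ then v i.castSucc else 0 := by
    intro i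
    obtain ⟨a, ha⟩ := dens (f i) (Finset.univ.image v)
    exact ⟨a, fun j => by rw [ha _ (Finset.mem_image_of_mem _ (Finset.mem_univ _)), hf]⟩
  choose x hx using hx
  have key : ∀ n (hn : n < D + 1) (g : Fin n → Fin D),
      (List.ofFn (fun i => x (g i))).prod • v ⟨n, hn⟩ =
        if ∀ i, (g i : ℕ) = i then v 0 else 0 := by
    intro n
    induction n with
    | zero => intro hn g; simp
    | succ n ih =>
      intro hn g
      rw [List.ofFn_succ', List.concat_eq_append, List.prod_append, List.prod_singleton,
        mul_smul, hx]
      by_cases h : (g (Fin.last n) : ℕ) = n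
      · rw [if_pos (by ext; simp [h])]
        have e1 : (g (Fin.last n)).castSucc = ⟨n, by omega⟩ := by ext; simp [h]
        rw [e1, ih]
        have e2 : (∀ i : Fin n, (g i.castSucc : ℕ) = i) ↔ ∀ i, (g i : ℕ) = i := by
          constructor
          · intro h2 i
            refine Fin.lastCases ?_ (fun i => ?_) i
            · simpa using h
            · simpa using h2 i
          · intro h2 i
            simpa using h2 i.castSucc
        simp only [e2]
      · rw [if_neg, smul_zero, if_neg]
        · intro h2; exact h (by simpa using h2 (Fin.last n))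
        · intro h2
          apply h
          have := congrArg Fin.val h2
          simp at this
          omega
  have h0 := hA x
  have h1 : (∑ σ : Equiv.Perm (Fin D), ((c σ : ℤ) : A) *
      (List.ofFn fun i => x (σ i)).prod) • v (Fin.last D) = v 0 := by
    rw [Finset.sum_smul, Finset.sum_eq_single (1 : Equiv.Perm (Fin D))]
    · rw [hc, Int.cast_one, one_mul]
      have := key D (by omega) (fun i => (1 : Equiv.Perm (Fin D)) i)
      rw [if_pos (by intro i; simp)] at this
      exact this
    · intro σ _ hσ
      rw [mul_smul]
      have := key D (by omega) (fun i => σ i)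
      rw [if_neg] at this
      · have e : (⟨D, by omega⟩ : Fin (D + 1)) = Fin.last D := rfl
        rw [e] at this
        rw [this, smul_zero]
      · intro h
        apply hσ
        ext i
        simpa using h i
    · intro h; exact absurd (Finset.mem_univ _) h
  rw [h0, zero_smul] at h1
  exact hv.ne_zero 0 h1.symm

end Pool.Agent.H992R2.Kap
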