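import Pool.Agent.H626R2.Loc.Defs

set_option autoImplicit false

namespace Pool.Agent.H626R2.Loc

open MvPolynomial

section poly

variable {K : Type} [Field K] {n : ℕ}

theorem c2de_ren_C {r : ℕ} (s : Fin r → Fin n) (c : K) :
    ren (K := K) s (C c) = C (C c) := by
  have h := (ren (K := K) (n := n) s).commutes c
  rw [MvPolynomial.algebraMap_eq] at h
  rw [h]
  rfl

theorem c2de_ren_X_alive {r : ℕ} (s : Fin r → Fin n) (hs : Function.Injective s) (b : Fin r) :
    ren (K := K) s (X (s b)) = X b := by
  classical
  have h : ∃ b', s b' = s b := ⟨b, rfl⟩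
  simp only [ren, aeval_X, dif_pos h]
  congr 1
  exact hs h.choose_spec

theorem c2de_ren_X_dead {r : ℕ} (s : Fin r → Fin n) (m : Fin n) (hm : ¬ ∃ b, s b = m) :
    ren (K := K) s (X m) = C (X m) := by
  classical
  simp only [ren, aeval_X, dif_neg hm]

theorem c2de_aff_X_alive {q : ℕ} (s : Fin q → Fin n) (hs : Function.Injective s)
    (base : Fin n → K) (b : Fin q) :
    aff s base (X (s b)) = C (base (s b)) + X b := by
  classical
  simp only [aff, aeval_X]
  congr 1
  rw [Finset.sum_eq_single b]
  · simp
  · intro b' _ hb'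
    rw [if_neg]
    intro h
    exact hb' (hs h)
  · intro h
    exact absurd (Finset.mem_univ b) h

theorem c2de_aff_X_dead {q : ℕ} (s : Fin q → Fin n) (base : Fin n → K) (m : Fin n)
    (hm : ¬ ∃ b, s b = m) : aff s base (X m) = C (base m) := by
  classical
  simp only [aff, aeval_X]
  rw [Finset.sum_eq_zero, add_zero]
  intro b _
  rw [if_neg]
  intro h
  exact hm ⟨b, h⟩

/-- C2d. -/
theorem aff_eq {q : ℕ} (s : Fin q → Fin n) (hs : Function.Injective s) (base : Fin n → K)
    (f : MvPolynomial (Fin n) K) :
    aff s base f = aeval (fun b : Fin q => (C (base (s b)) + X b : MvPolynomial (Fin q) K))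
      (MvPolynomial.map (eval base) (ren s f)) := by
  induction f using MvPolynomial.induction_on with
  | C c =>
    rw [c2de_ren_C, MvPolynomial.map_C, MvPolynomial.eval_C]
    rw [← MvPolynomial.algebraMap_eq, ← MvPolynomial.algebraMap_eq, AlgHom.commutes,
      AlgHom.commutes]
  | add p r hp hr => rw [map_add, map_add, map_add, map_add, hp, hr]
  | mul_X p m hp =>
    rw [map_mul, map_mul, map_mul, map_mul, hp]
    congr 1
    by_cases hm : ∃ b, s b = m
    · obtain ⟨b, rfl⟩ := hm
      rw [c2de_ren_X_alive s hs, c2de_aff_X_alive s hs, MvPolynomial.map_X, aeval_X]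
    · rw [c2de_ren_X_dead s m hm, c2de_aff_X_dead s base m hm, MvPolynomial.map_C,
        MvPolynomial.eval_X, ← MvPolynomial.algebraMap_eq, AlgHom.commutes]

/-- C2e. -/
theorem shift_injective {q : ℕ} {B : Type} [CommRing B] (c : Fin q → B) :
    Function.Injective (aeval (fun b : Fin q => (C (c b) + X b : MvPolynomial (Fin q) B)) :
      MvPolynomial (Fin q) B →ₐ[B] MvPolynomial (Fin q) B) := by
  have h : ((aeval (fun b : Fin q => (X b - C (c b) : MvPolynomial (Fin q) B)) :
      MvPolynomial (Fin q) B →ₐ[B] MvPolynomial (Fin q) B).comp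
      (aeval (fun b : Fin q => (C (c b) + X b : MvPolynomial (Fin q) B)))) =
      AlgHom.id B (MvPolynomial (Fin q) B) := by
    apply MvPolynomial.algHom_ext
    intro b
    rw [AlgHom.comp_apply, aeval_X, map_add, aeval_X, ← MvPolynomial.algebraMap_eq,
      AlgHom.commutes, AlgHom.id_apply]
    ring
  intro x y hxy
  have h1 := DFunLike.congr_fun h x
  have h2 := DFunLike.congr_fun h y
  rw [AlgHom.comp_apply, AlgHom.id_apply] at h1 h2
  rw [← h1, ← h2, hxy]

/-- C3. -/
theorem pderiv_aff {q : ℕ} (s : Fin q → Fin n) (hs : Function.Injective s) (base : Fin n → K)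
    (b : Fin q) (f : MvPolynomial (Fin n) K) :
    pderiv b (aff s base f) = aff s base (pderiv (s b) f) := by
  classical
  induction f using MvPolynomial.induction_on with
  | C c =>
    rw [pderiv_C, map_zero, ← MvPolynomial.algebraMap_eq, AlgHom.commutes,
      MvPolynomial.algebraMap_eq, pderiv_C]
  | add p r hp hr => rw [map_add, map_add, map_add, map_add, hp, hr]
  | mul_X p m hp =>
    have hX : pderiv b (aff s base (X m)) = aff s base (pderiv (s b) (X m)) := by
      by_cases hm : ∃ b, s b = m
      · obtain ⟨b', rfl⟩ := hm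
        rw [c2de_aff_X_alive s hs, map_add, pderiv_C, zero_add]
        by_cases hb : b' = b
        · subst hb
          rw [pderiv_X_self, pderiv_X_self, map_one]
        · rw [pderiv_X_of_ne hb, pderiv_X_of_ne (fun h => hb (hs h)), map_zero]
      · rw [c2de_aff_X_dead s base m hm, pderiv_C, pderiv_X_of_ne, map_zero]
        intro h
        exact hm ⟨b, h.symm⟩
    rw [map_mul, pderiv_mul, pderiv_mul, hp, hX, map_add, map_mul, map_mul]

end poly

end Pool.Agent.H626R2.Loc
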