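import Pool.Agent.H992R2.Sec

/-! The bound for `‖A‖ ‖A⁻¹ w‖` for a fixed unit vector `w`. -/

set_option autoImplicit false
open MeasureTheory Measure Set ProbabilityTheory
open scoped ENNReal NNReal

namespace Pool.Agent.H992R2

variable {n : ℕ}

lemma en_inv_eq (M : Matrix (Fin n) (Fin n) ℝ) (w : Fin n → ℝ) :
    en (M⁻¹.mulVec w) = |M.det⁻¹| * en (M.adjugate.mulVec w) := by
  rw [Matrix.inv_def, Ring.inverse_eq_inv', Matrix.smul_mulVec, en_smul]

lemma continuous_en : Continuous (fun v : Fin n → ℝ => en v) :=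
  (PiLp.continuous_toLp 2 _).norm

lemma meas_en_inv {X : Type*} [TopologicalSpace X] [MeasurableSpace X] [OpensMeasurableSpace X]
    {A : X → Matrix (Fin n) (Fin n) ℝ} (hA : Continuous A) (w : Fin n → ℝ) :
    Measurable fun a => en ((A a)⁻¹.mulVec w) := by
  simp_rw [en_inv_eq]
  have h1 : Measurable fun a => |(A a).det⁻¹| := (hA.matrix_det.measurable.inv).abs
  have h2 : Measurable fun a => en ((A a).adjugate.mulVec w) :=
    (continuous_en.comp (hA.matrix_adjugate.matrix_mulVec continuous_const)).measurable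
  exact h1.mul h2

lemma meas_event {X : Type*} [TopologicalSpace X] [MeasurableSpace X] [OpensMeasurableSpace X]
    {A : X → Matrix (Fin n) (Fin n) ℝ} (hA : Continuous A) (w : Fin n → ℝ) (x : ℝ) :
    MeasurableSet {a | (A a).det ≠ 0 ∧ x ≤ ‖Ph (A a)‖ * en ((A a)⁻¹.mulVec w)} := by
  have h1 : MeasurableSet {a | (A a).det ≠ 0} :=
    (isOpen_ne_fun hA.matrix_det continuous_const).measurableSet
  have h2 : MeasurableSet {a | x ≤ ‖Ph (A a)‖ * en ((A a)⁻¹.mulVec w)} :=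
    measurableSet_le measurable_const
      (((continuous_Ph.comp hA).norm.measurable).mul (meas_en_inv hA w))
  exact h1.inter h2

lemma cont_aff (Abar : Matrix (Fin n) (Fin n) ℝ) (σ : ℝ) :
    Continuous fun G : Fin n → Fin n → ℝ => Abar + σ • Matrix.of G := by
  refine continuous_matrix fun i j => ?_
  simp only [Matrix.add_apply, Matrix.smul_apply, Matrix.of_apply]
  fun_prop

theorem key_e0 {N : ℕ} (Abar : Matrix (Fin (N + 1)) (Fin (N + 1)) ℝ) {σ x : ℝ}
    (hσ : 0 < σ) (hx : 2 ≤ x) :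
    muM (N + 1) (N + 1) {G | (Abar + σ • Matrix.of G).det ≠ 0 ∧
      x ≤ ‖Ph (Abar + σ • Matrix.of G)‖ * en ((Abar + σ • Matrix.of G)⁻¹.mulVec (ez N))} ≤
    ENNReal.ofReal (2 / (x * σ)) *
      ∫⁻ G, ENNReal.ofReal ‖Ph (Abar + σ • Matrix.of G)‖ ∂(muM (N + 1) (N + 1)) := by
  set S : Set (Fin (N + 1) → Fin (N + 1) → ℝ) := {G | (Abar + σ • Matrix.of G).det ≠ 0 ∧
      x ≤ ‖Ph (Abar + σ • Matrix.of G)‖ * en ((Abar + σ • Matrix.of G)⁻¹.mulVec (ez N))} with hS
  have hSm : MeasurableSet S := meas_event (cont_aff Abar σ) (ez N) x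
  have hsplit := measurePreserving_piFinSuccAbove
    (fun _ : Fin (N + 1) => gam (Fin (N + 1))) 0
  set e := MeasurableEquiv.piFinSuccAbove (fun _ : Fin (N + 1) => (Fin (N + 1) → ℝ)) 0 with he
  have hes : ∀ z : (Fin (N + 1) → ℝ) × (Fin N → Fin (N + 1) → ℝ), e.symm z = Fin.cons z.1 z.2 := by
    intro z
    exact Fin.insertNth_zero' z.1 z.2
  have h1 : muM (N + 1) (N + 1) S =
      ((gam (Fin (N + 1))).prod (Measure.pi fun _ : Fin N => gam (Fin (N + 1)))) (e.symm ⁻¹' S) := by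
    rw [← hsplit.measure_preimage (e.symm.measurable hSm).nullMeasurableSet]
    congr 1
    ext G
    rw [mem_preimage, mem_preimage]
    rw [show (MeasurableEquiv.piFinSuccAbove (fun _ : Fin (N + 1) => (Fin (N + 1) → ℝ)) 0) G = e G
      from rfl, e.symm_apply_apply]
  have hfm : Measurable fun G : Fin (N + 1) → Fin (N + 1) → ℝ =>
      ENNReal.ofReal ‖Ph (Abar + σ • Matrix.of G)‖ :=
    ((continuous_Ph.comp (cont_aff Abar σ)).norm.measurable).ennreal_ofReal
  have hgm : Measurable fun z : (Fin (N + 1) → ℝ) × (Fin N → Fin (N + 1) → ℝ) =>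
      ENNReal.ofReal ‖Ph (Abar + σ • Matrix.of (e.symm z))‖ := hfm.comp e.symm.measurable
  have h2 : ∫⁻ G, ENNReal.ofReal ‖Ph (Abar + σ • Matrix.of G)‖ ∂(muM (N + 1) (N + 1)) =
      ∫⁻ z, ENNReal.ofReal ‖Ph (Abar + σ • Matrix.of (e.symm z))‖
        ∂((gam (Fin (N + 1))).prod (Measure.pi fun _ : Fin N => gam (Fin (N + 1)))) := by
    rw [← hsplit.lintegral_comp hgm]
    refine lintegral_congr fun G => ?_
    rw [show (MeasurableEquiv.piFinSuccAbove (fun _ : Fin (N + 1) => (Fin (N + 1) → ℝ)) 0) G = e G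
      from rfl, e.symm_apply_apply]
  rw [h1, h2, Measure.prod_apply_symm (e.symm.measurable hSm),
    lintegral_prod_symm' _ hgm,
    ← lintegral_const_mul' _ _ ENNReal.ofReal_ne_top]
  refine lintegral_mono fun B => ?_
  simp only [hes]
  have := section_bound Abar hσ hx B
  refine le_trans (le_of_eq ?_) this
  congr 1
  ext a
  simp only [mem_preimage, hes]
  rfl

theorem key_unit {N : ℕ} (Abar : Matrix (Fin (N + 1)) (Fin (N + 1)) ℝ) {σ x : ℝ}
    (hσ : 0 < σ) (hx : 2 ≤ x) (w : Fin (N + 1) → ℝ) (hw : dotProduct w w = 1) {c : ℝ}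
    (hA : ‖Ph Abar‖ ≤ c) {L : ℝ≥0∞}
    (hL : ∫⁻ G, ENNReal.ofReal ‖Ph (Matrix.of G : Matrix (Fin (N + 1)) (Fin (N + 1)) ℝ)‖
      ∂(muM (N + 1) (N + 1)) ≤ L) :
    muM (N + 1) (N + 1) {G | (Abar + σ • Matrix.of G).det ≠ 0 ∧
      x ≤ ‖Ph (Abar + σ • Matrix.of G)‖ * en ((Abar + σ • Matrix.of G)⁻¹.mulVec w)} ≤
    ENNReal.ofReal (2 / (x * σ)) * (ENNReal.ofReal c + ENNReal.ofReal σ * L) := by
  set Q := hh w (ez N) with hQ
  have hez : dotProduct (ez N) (ez N) = 1 := by simp [ez]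
  have hQt : Q.transpose = Q := hh_transpose _ _
  have hQQ : Q * Q = 1 := hh_mul_self _ _
  have hQtQ : Q.transpose * Q = 1 := by rw [hQt, hQQ]
  have hQw : Q.mulVec w = ez N := hh_mulVec _ _ (by rw [hez, hw])
  have hQe : Q.mulVec (ez N) = w := by rw [← hQw, Matrix.mulVec_mulVec, hQQ, Matrix.one_mulVec]
  have hmp := mp_left_mul (k := N + 1) Q hQtQ
  have hdet : Q.det ≠ 0 := by
    intro h
    have := congrArg Matrix.det hQQ
    rw [Matrix.det_mul, h, zero_mul, Matrix.det_one] at this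
    exact one_ne_zero this.symm
  set S' : Set (Fin (N + 1) → Fin (N + 1) → ℝ) := {G | (Q * Abar + σ • Matrix.of G).det ≠ 0 ∧
      x ≤ ‖Ph (Q * Abar + σ • Matrix.of G)‖ * en ((Q * Abar + σ • Matrix.of G)⁻¹.mulVec (ez N))}
    with hS'
  have hS'm : MeasurableSet S' := meas_event (cont_aff _ σ) (ez N) x
  have hset : {G : Fin (N + 1) → Fin (N + 1) → ℝ | (Abar + σ • Matrix.of G).det ≠ 0 ∧
      x ≤ ‖Ph (Abar + σ • Matrix.of G)‖ * en ((Abar + σ • Matrix.of G)⁻¹.mulVec w)} =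
      (fun G : Fin (N + 1) → Fin (N + 1) → ℝ => fun i j => ∑ l, Q i l * G l j) ⁻¹' S' := by
    ext G
    simp only [hS', mem_ofPred_eq, mem_preimage]
    have h1 : Matrix.of (fun i j => ∑ l, Q i l * G l j) = Q * Matrix.of G := by
      ext i j
      simp [Matrix.mul_apply]
    have h2 : Q * Abar + σ • Matrix.of (fun i j => ∑ l, Q i l * G l j) =
        Q * (Abar + σ • Matrix.of G) := by
      rw [h1, Matrix.mul_add, Matrix.mul_smul]
    rw [h2, Matrix.det_mul, opn_orth_mul hQtQ, Matrix.mul_inv_rev]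
    have h3 : Q⁻¹ = Q := Matrix.inv_eq_left_inv hQQ
    rw [h3, ← Matrix.mulVec_mulVec, hQe]
    constructor
    · rintro ⟨h4, h5⟩
      exact ⟨mul_ne_zero hdet h4, h5⟩
    · rintro ⟨h4, h5⟩
      exact ⟨right_ne_zero_of_mul h4, h5⟩
  rw [hset, hmp.measure_preimage hS'm.nullMeasurableSet]
  refine (key_e0 (Q * Abar) hσ hx).trans ?_
  gcongr
  have hGm : Measurable fun G : Fin (N + 1) → Fin (N + 1) → ℝ =>
      ENNReal.ofReal ‖Ph (Matrix.of G : Matrix (Fin (N + 1)) (Fin (N + 1)) ℝ)‖ := by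
    have := cont_aff (0 : Matrix (Fin (N + 1)) (Fin (N + 1)) ℝ) 1
    simp only [zero_add, one_smul] at this
    exact ((continuous_Ph.comp this).norm.measurable).ennreal_ofReal
  calc ∫⁻ G, ENNReal.ofReal ‖Ph (Q * Abar + σ • Matrix.of G)‖ ∂(muM (N + 1) (N + 1))
      ≤ ∫⁻ G, (ENNReal.ofReal c + ENNReal.ofReal σ *
          ENNReal.ofReal ‖Ph (Matrix.of G : Matrix (Fin (N + 1)) (Fin (N + 1)) ℝ)‖)
          ∂(muM (N + 1) (N + 1)) := by
        refine lintegral_mono fun G => ?_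
        have hc : 0 ≤ c := (norm_nonneg _).trans hA
        rw [← ENNReal.ofReal_mul hσ.le, ← ENNReal.ofReal_add hc (by positivity)]
        apply ENNReal.ofReal_le_ofReal
        have h1 : Ph (Q * Abar + σ • Matrix.of G) = Ph (Q * Abar) + σ • Ph (Matrix.of G) := by
          rw [Ph, map_add, map_smul]
        rw [h1]
        refine (norm_add_le _ _).trans ?_
        rw [opn_orth_mul hQtQ, norm_smul, Real.norm_of_nonneg hσ.le]
        gcongr
    _ = ENNReal.ofReal c + ENNReal.ofReal σ *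
          ∫⁻ G, ENNReal.ofReal ‖Ph (Matrix.of G : Matrix (Fin (N + 1)) (Fin (N + 1)) ℝ)‖
          ∂(muM (N + 1) (N + 1)) := by
        rw [lintegral_add_left measurable_const, lintegral_const_mul _ hGm]
        simp
    _ ≤ ENNReal.ofReal c + ENNReal.ofReal σ * L := by gcongr

end Pool.Agent.H992R2
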