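import Pool.Agent.H992R2.Gap
import Pool.Agent.H992R2.Key

/-! Gaussian matrices are almost surely invertible. -/

set_option autoImplicit false
open MeasureTheory Measure Set ProbabilityTheory
open scoped ENNReal NNReal

namespace Pool.Agent.H992R2

/-- The matrix attached to a point of `W n n`. -/
def toM {n : ℕ} (X : W n n) : Matrix (Fin n) (Fin n) ℝ := Matrix.of fun i j => X (i, j)

theorem finite_roots {n : ℕ} (M : Matrix (Fin n) (Fin n) ℝ) :
    {s : ℝ | (M + s • (1 : Matrix (Fin n) (Fin n) ℝ)).det = 0}.Finite := by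
  have h1 : {s : ℝ | (M + s • (1 : Matrix (Fin n) (Fin n) ℝ)).det = 0} ⊆
      ((-M).charpoly.roots.toFinset : Set ℝ) := by
    intro s hs
    simp only [mem_ofPred_eq] at hs
    have h2 : (-M).charpoly.eval s = 0 := by
      rw [Matrix.eval_charpoly, ← hs]
      congr 1
      rw [sub_neg_eq_add, add_comm, Matrix.scalar_apply, Matrix.smul_one_eq_diagonal]
    simp only [Finset.mem_coe, Multiset.mem_toFinset]
    exact (Polynomial.mem_roots (Matrix.charpoly_monic _).ne_zero).mpr h2
  exact (Finset.finite_toSet _).subset h1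

theorem volume_det_null {n : ℕ} (Abar : Matrix (Fin n) (Fin n) ℝ) {σ : ℝ} (hσ : 0 < σ) :
    (volume : Measure (W n n)) {X | (Abar + σ • toM X).det = 0} = 0 := by
  have hc : Continuous fun z : W n n × ℝ => Abar + σ • toM z.1 +
      z.2 • (1 : Matrix (Fin n) (Fin n) ℝ) := by
    refine continuous_matrix fun i j => ?_
    simp only [Matrix.add_apply, Matrix.smul_apply, toM, Matrix.of_apply]
    fun_prop
  have hT : MeasurableSet {z : W n n × ℝ | (Abar + σ • toM z.1 +
      z.2 • (1 : Matrix (Fin n) (Fin n) ℝ)).det = 0} :=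
    (isClosed_eq hc.matrix_det continuous_const).measurableSet
  set T := {z : W n n × ℝ | (Abar + σ • toM z.1 +
      z.2 • (1 : Matrix (Fin n) (Fin n) ℝ)).det = 0} with hTdef
  have h0 : ((volume : Measure (W n n)).prod (volume : Measure ℝ)) T = 0 := by
    rw [Measure.measure_prod_null hT]
    refine Filter.Eventually.of_forall fun X => ?_
    exact (finite_roots (Abar + σ • toM X)).measure_zero _
  rw [Measure.prod_apply_symm hT, lintegral_eq_zero_iff (measurable_measure_prodMk_right hT)] at h0
  obtain ⟨s, hs⟩ := h0.exists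
  simp only [Pi.zero_apply] at hs
  have h1 : (fun X : W n n => (X, s)) ⁻¹' T =
      (fun X => X + (s / σ) • (WithLp.toLp 2 fun p : Fin n × Fin n =>
        (1 : Matrix (Fin n) (Fin n) ℝ) p.1 p.2 : W n n)) ⁻¹'
        {X | (Abar + σ • toM X).det = 0} := by
    ext X
    simp only [hTdef, mem_preimage, mem_ofPred_eq]
    have : Abar + σ • toM X + s • (1 : Matrix (Fin n) (Fin n) ℝ) =
        Abar + σ • toM (X + (s / σ) • (WithLp.toLp 2 fun p : Fin n × Fin n =>
        (1 : Matrix (Fin n) (Fin n) ℝ) p.1 p.2 : W n n)) := by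
      ext i j
      simp only [Matrix.add_apply, Matrix.smul_apply, toM, Matrix.of_apply, PiLp.add_apply,
        PiLp.smul_apply, smul_eq_mul]
      field_simp
      ring
    rw [this]
  rw [h1, measure_preimage_add_right] at hs
  exact hs

theorem det_null {n : ℕ} (Abar : Matrix (Fin n) (Fin n) ℝ) {σ : ℝ} (hσ : 0 < σ) :
    muM n n {G | (Abar + σ • Matrix.of G).det = 0} = 0 := by
  have h1 : {G : Fin n → Fin n → ℝ | (Abar + σ • Matrix.of G).det = 0} =
      Phi ⁻¹' {X | (Abar + σ • toM X).det = 0} := rfl
  have hm : MeasurableSet {X : W n n | (Abar + σ • toM X).det = 0} := by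
    have hc : Continuous fun z : W n n => Abar + σ • toM z := by
      refine continuous_matrix fun i j => ?_
      simp only [Matrix.add_apply, Matrix.smul_apply, toM, Matrix.of_apply]
      fun_prop
    exact (isClosed_eq hc.matrix_det continuous_const).measurableSet
  rw [h1, ← Measure.map_apply Phi_meas hm]
  have h2 := map_Phi (m := n) (n := n) (v := 1) one_ne_zero
  rw [h2]
  exact withDensity_absolutelyContinuous _ _ (volume_det_null Abar hσ)

end Pool.Agent.H992R2
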