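import Mathlib

/-! A Paley–Zygmund bound for sign vectors. -/

set_option autoImplicit false

namespace Pool.Agent.H992R2

/-- The sign attached to a bit. -/
def sg (b : Bool) : ℝ := if b then 1 else -1

lemma sg_sq (b : Bool) : sg b ^ 2 = 1 := by cases b <;> simp [sg]

lemma sum_cons {n : ℕ} (F : (Fin (n + 1) → Bool) → ℝ) :
    ∑ b, F b = ∑ b : Fin n → Bool, (F (Fin.cons true b) + F (Fin.cons false b)) := by
  rw [← (Fin.consEquiv (fun _ : Fin (n + 1) => Bool)).sum_comp, Fintype.sum_prod_type,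
    Fintype.sum_bool, ← Finset.sum_add_distrib]
  rfl

lemma sum_sq : ∀ {n : ℕ} (u : Fin n → ℝ),
    ∑ b : Fin n → Bool, (∑ i, u i * sg (b i)) ^ 2 = 2 ^ n * ∑ i, u i ^ 2 := by
  intro n
  induction n with
  | zero => intro u; simp
  | succ n ih =>
    intro u
    rw [sum_cons, Fin.sum_univ_succ]
    have h : ∀ b : Fin n → Bool, (∑ i, u i * sg ((Fin.cons true b : Fin (n + 1) → Bool) i)) ^ 2 +
        (∑ i, u i * sg ((Fin.cons false b : Fin (n + 1) → Bool) i)) ^ 2 =
        2 * (∑ i, u i.succ * sg (b i)) ^ 2 + 2 * u 0 ^ 2 := by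
      intro b
      rw [Fin.sum_univ_succ, Fin.sum_univ_succ]
      simp only [Fin.cons_zero, Fin.cons_succ, sg]
      simp only [if_true, Bool.false_eq_true, if_false]
      ring
    simp_rw [h]
    rw [Finset.sum_add_distrib, ← Finset.mul_sum, ih fun i => u i.succ]
    simp
    ring

lemma sum_four : ∀ {n : ℕ} (u : Fin n → ℝ),
    ∑ b : Fin n → Bool, (∑ i, u i * sg (b i)) ^ 4 ≤ 3 * 2 ^ n * (∑ i, u i ^ 2) ^ 2 := by
  intro n
  induction n with
  | zero => intro u; simp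
  | succ n ih =>
    intro u
    rw [sum_cons, Fin.sum_univ_succ]
    have h : ∀ b : Fin n → Bool, (∑ i, u i * sg ((Fin.cons true b : Fin (n + 1) → Bool) i)) ^ 4 +
        (∑ i, u i * sg ((Fin.cons false b : Fin (n + 1) → Bool) i)) ^ 4 =
        2 * (∑ i, u i.succ * sg (b i)) ^ 4 + 12 * u 0 ^ 2 * (∑ i, u i.succ * sg (b i)) ^ 2 +
          2 * u 0 ^ 4 := by
      intro b
      rw [Fin.sum_univ_succ, Fin.sum_univ_succ]
      simp only [Fin.cons_zero, Fin.cons_succ, sg]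
      simp only [if_true, Bool.false_eq_true, if_false]
      ring
    simp_rw [h]
    rw [Finset.sum_add_distrib, Finset.sum_add_distrib, ← Finset.mul_sum, ← Finset.mul_sum,
      sum_sq fun i => u i.succ]
    have h2 := ih fun i => u i.succ
    simp only [Finset.sum_const, Finset.card_univ, Fintype.card_fun, Fintype.card_bool,
      Fintype.card_fin, nsmul_eq_mul]
    push_cast
    set q := ∑ i : Fin n, u i.succ ^ 2 with hq
    have hq0 : 0 ≤ q := Finset.sum_nonneg fun i _ => sq_nonneg _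
    have h3 : (0 : ℝ) < 2 ^ n := by positivity
    have h4 : 0 ≤ (2 : ℝ) ^ n * u 0 ^ 4 := by positivity
    have h5 : 3 * 2 ^ (n + 1) * (u 0 ^ 2 + q) ^ 2 - (2 * (3 * 2 ^ n * q ^ 2) +
        12 * u 0 ^ 2 * (2 ^ n * q) + 2 ^ n * (2 * u 0 ^ 4)) = 4 * (2 ^ n * u 0 ^ 4) := by ring
    nlinarith

/-- For a unit vector `u` at least `3/16` of the sign vectors `ε` satisfy `|⟨u, ε⟩| ≥ 1/2`. -/
theorem many_signs {n : ℕ} (u : Fin n → ℝ) (hu : ∑ i, u i ^ 2 = 1) :
    (3 / 16 : ℝ) * 2 ^ n ≤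
      ∑ b : Fin n → Bool, (if 1 / 2 ≤ |∑ i, u i * sg (b i)| then (1 : ℝ) else 0) := by
  have h1 := sum_sq u
  have h2 := sum_four u
  rw [hu] at h1 h2
  have h3 : ∀ b : Fin n → Bool, (∑ i, u i * sg (b i)) ^ 2 - 1 / 4 - (∑ i, u i * sg (b i)) ^ 4 / 8 ≤
      2 * (if 1 / 2 ≤ |∑ i, u i * sg (b i)| then (1 : ℝ) else 0) := by
    intro b
    set S := ∑ i, u i * sg (b i)
    split_ifs with h
    · nlinarith [sq_nonneg (S ^ 2 - 4)]
    · push Not at h
      have h4 : S ^ 2 < 1 / 4 := by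
        rw [← sq_abs]
        nlinarith [abs_nonneg S]
      nlinarith [sq_nonneg (S ^ 2)]
  have h4 := Finset.sum_le_sum fun b (_ : b ∈ (Finset.univ : Finset (Fin n → Bool))) => h3 b
  have h5 : ∑ b : Fin n → Bool, (∑ i, u i * sg (b i)) ^ 4 / 8 =
      (∑ b : Fin n → Bool, (∑ i, u i * sg (b i)) ^ 4) / 8 := by rw [Finset.sum_div]
  rw [Finset.sum_sub_distrib, Finset.sum_sub_distrib, h1, h5, ← Finset.mul_sum] at h4
  simp only [Finset.sum_const, Finset.card_univ, Fintype.card_fun, Fintype.card_bool,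
      Fintype.card_fin, nsmul_eq_mul] at h4
  push_cast at h4
  linarith

end Pool.Agent.H992R2
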