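import Pool.Agent.H992R2.NormExp
import Pool.Agent.H992R2.Signs
import Pool.Agent.H992R2.DetNull

/-! The smoothed tail bound for the condition number. -/

set_option autoImplicit false
open MeasureTheory Measure Set ProbabilityTheory
open scoped ENNReal NNReal

namespace Pool.Agent.H992R2

/-- The normalised sign vector. -/
noncomputable def wv {n : ℕ} (b : Fin n → Bool) : Fin n → ℝ :=
  fun i => (Real.sqrt n)⁻¹ * sg (b i)

lemma wv_unit {n : ℕ} (hn : 1 ≤ n) (b : Fin n → Bool) : dotProduct (wv b) (wv b) = 1 := by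
  have hn' : (0 : ℝ) < n := by exact_mod_cast hn
  have h1 : ∀ i, wv b i * wv b i = (n : ℝ)⁻¹ := by
    intro i
    have h2 := sg_sq (b i)
    have h3 := Real.sq_sqrt hn'.le
    simp only [wv]
    calc (Real.sqrt n)⁻¹ * sg (b i) * ((Real.sqrt n)⁻¹ * sg (b i)) =
        (Real.sqrt n ^ 2)⁻¹ * (sg (b i) ^ 2) := by rw [← inv_pow]; ring
      _ = (n : ℝ)⁻¹ := by rw [h2, h3, mul_one]
  simp only [dotProduct, h1]
  rw [Finset.sum_const, Finset.card_univ, Fintype.card_fin, nsmul_eq_mul]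
  field_simp

/-- Pointwise: a large condition number is seen by many sign vectors. -/
theorem pointwise_signs {n : ℕ} (hn : 1 ≤ n) (A : Matrix (Fin n) (Fin n) ℝ) {x : ℝ} (hx : 0 < x)
    (h : x ≤ ‖Ph A‖ * ‖Ph A⁻¹‖) :
    (3 / 16 : ℝ) * 2 ^ n ≤
      ∑ b : Fin n → Bool, (if x / (4 * Real.sqrt n) ≤ ‖Ph A‖ * en (A⁻¹.mulVec (wv b))
        then (1 : ℝ) else 0) := by
  have hn' : (0 : ℝ) < n := by exact_mod_cast hn
  have hsn : 0 < Real.sqrt n := Real.sqrt_pos.mpr hn'
  set S := Ph A⁻¹ with hS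
  have hA0 : 0 ≤ ‖Ph A‖ := norm_nonneg _
  have hS0 : 0 < ‖S‖ := by
    by_contra hc
    have : ‖S‖ = 0 := le_antisymm (not_lt.mp hc) (norm_nonneg _)
    rw [this, mul_zero] at h
    linarith
  have hadj : ‖S.adjoint‖ = ‖S‖ := LinearIsometryEquiv.norm_map _ _
  obtain ⟨z, hz1, hz2⟩ := S.adjoint.exists_lt_apply_of_lt_opNorm
    (r := ‖S‖ / 2) (by rw [hadj]; linarith)
  set y := S.adjoint z with hy
  have hy0 : 0 < ‖y‖ := by linarith
  set u : Fin n → ℝ := fun i => ‖y‖⁻¹ * y i with hu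
  have hu1 : ∑ i, u i ^ 2 = 1 := by
    have h1 : ‖y‖ ^ 2 = ∑ i, y i ^ 2 := by
      rw [EuclideanSpace.norm_sq_eq]
      simp
    simp only [hu, mul_pow]
    rw [← Finset.mul_sum, ← h1]
    field_simp
  refine (many_signs u hu1).trans (Finset.sum_le_sum fun b _ => ?_)
  by_cases hb : 1 / 2 ≤ |∑ i, u i * sg (b i)|
  · rw [if_pos hb, if_pos]
    have h1 : inner ℝ y (WithLp.toLp 2 (wv b) : EuclideanSpace ℝ (Fin n)) =
        ‖y‖ * (Real.sqrt n)⁻¹ * ∑ i, u i * sg (b i) := by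
      simp only [PiLp.inner_apply, RCLike.inner_apply, conj_trivial, wv, hu]
      rw [Finset.mul_sum]
      refine Finset.sum_congr rfl fun i _ => ?_
      field_simp
    have h2 : inner ℝ y (WithLp.toLp 2 (wv b) : EuclideanSpace ℝ (Fin n)) =
        inner ℝ z (S (WithLp.toLp 2 (wv b))) := by
      rw [hy, ContinuousLinearMap.adjoint_inner_left]
    have h3 : |inner ℝ z (S (WithLp.toLp 2 (wv b)))| ≤ en (A⁻¹.mulVec (wv b)) := by
      refine (abs_real_inner_le_norm _ _).trans ?_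
      have h4 : ‖S (WithLp.toLp 2 (wv b))‖ = en (A⁻¹.mulVec (wv b)) := by
        rw [hS, Ph_toLp]
      rw [h4]
      have h5 : 0 ≤ en (A⁻¹.mulVec (wv b)) := norm_nonneg _
      nlinarith
    rw [← h2, h1, abs_mul, abs_of_nonneg (by positivity)] at h3
    have h6 : ‖S‖ / (4 * Real.sqrt n) ≤ en (A⁻¹.mulVec (wv b)) := by
      refine le_trans ?_ h3
      have h7 : ‖S‖ / (4 * Real.sqrt n) = (‖S‖ / 2) * (Real.sqrt n)⁻¹ * (1 / 2) := by
        field_simp; ring
      rw [h7]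
      gcongr
    calc x / (4 * Real.sqrt n) ≤ ‖Ph A‖ * ‖S‖ / (4 * Real.sqrt n) := by gcongr
      _ = ‖Ph A‖ * (‖S‖ / (4 * Real.sqrt n)) := by ring
      _ ≤ _ := by gcongr
  · rw [if_neg hb]
    split_ifs <;> norm_num

theorem key_unit' {n : ℕ} (hn : 1 ≤ n) (Abar : Matrix (Fin n) (Fin n) ℝ) {σ x : ℝ}
    (hσ : 0 < σ) (hx : 2 ≤ x) (w : Fin n → ℝ) (hw : dotProduct w w = 1) {c : ℝ}
    (hA : ‖Ph Abar‖ ≤ c) {L : ℝ≥0∞}
    (hL : ∫⁻ G, ENNReal.ofReal ‖Ph (Matrix.of G : Matrix (Fin n) (Fin n) ℝ)‖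
      ∂(muM n n) ≤ L) :
    muM n n {G | (Abar + σ • Matrix.of G).det ≠ 0 ∧
      x ≤ ‖Ph (Abar + σ • Matrix.of G)‖ * en ((Abar + σ • Matrix.of G)⁻¹.mulVec w)} ≤
    ENNReal.ofReal (2 / (x * σ)) * (ENNReal.ofReal c + ENNReal.ofReal σ * L) := by
  obtain ⟨N, rfl⟩ : ∃ N, n = N + 1 := ⟨n - 1, by omega⟩
  exact key_unit Abar hσ hx w hw hA hL

theorem expected_norm' {n : ℕ} (hn : 1 ≤ n) :
    ∫⁻ G, ENNReal.ofReal ‖Ph (Matrix.of G : Matrix (Fin n) (Fin n) ℝ)‖
      ∂(muM n n) ≤ ENNReal.ofReal (25 * Real.sqrt (n : ℝ)) := by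
  obtain ⟨N, rfl⟩ : ∃ N, n = N + 1 := ⟨n - 1, by omega⟩
  exact expected_norm N

theorem cond_bound {n : ℕ} (hn1 : 1 ≤ n) (Abar : Matrix (Fin n) (Fin n) ℝ)
    (hA : ‖Ph Abar‖ ≤ Real.sqrt (n : ℝ)) (σ : ℝ) (hσ : 0 < σ) (hσ1 : σ ≤ 1)
    (x : ℝ) (hx : 0 < x) :
    muM n n {G | (Abar + σ • Matrix.of G).det = 0 ∨
      x ≤ ‖Ph (Abar + σ • Matrix.of G)‖ * ‖Ph (Abar + σ • Matrix.of G)⁻¹‖} ≤
    ENNReal.ofReal (1200 * (n : ℝ) / (x * σ)) := by
  have hn' : (1 : ℝ) ≤ n := by exact_mod_cast hn1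
  set a := Real.sqrt ((n : ℕ) : ℝ) with ha
  have ha1 : 1 ≤ a := Real.one_le_sqrt.mpr hn'
  have haa : a * a = n := Real.mul_self_sqrt (by linarith)
  rcases lt_or_ge x (8 * a) with hxs | hxl
  · calc muM n n {G | (Abar + σ • Matrix.of G).det = 0 ∨
        x ≤ ‖Ph (Abar + σ • Matrix.of G)‖ * ‖Ph (Abar + σ • Matrix.of G)⁻¹‖} ≤ 1 := prob_le_one
      _ ≤ _ := by
        rw [← ENNReal.ofReal_one]
        apply ENNReal.ofReal_le_ofReal
        rw [le_div_iff₀ (by positivity)]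
        have : x * σ ≤ 8 * a * 1 := by gcongr
        nlinarith
  · set x' := x / (4 * a) with hx'
    have hx'2 : 2 ≤ x' := by
      rw [hx', le_div_iff₀ (by positivity)]
      linarith
    set E : (Fin n → Bool) → Set (Fin n → Fin n → ℝ) := fun b =>
      {G | (Abar + σ • Matrix.of G).det ≠ 0 ∧
        x' ≤ ‖Ph (Abar + σ • Matrix.of G)‖ * en ((Abar + σ • Matrix.of G)⁻¹.mulVec (wv b))} with hE
    have hEm : ∀ b, MeasurableSet (E b) := fun b => meas_event (cont_aff Abar σ) (wv b) x'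
    have hEb : ∀ b, muM n n (E b) ≤ ENNReal.ofReal (2 / (x' * σ) * (26 * a)) := by
      intro b
      refine (key_unit' hn1 Abar hσ hx'2 (wv b) (wv_unit hn1 b) hA (expected_norm' hn1)).trans ?_
      rw [← ENNReal.ofReal_mul hσ.le, ← ENNReal.ofReal_add (by positivity) (by positivity),
        ← ENNReal.ofReal_mul (by positivity)]
      apply ENNReal.ofReal_le_ofReal
      gcongr
      have : σ * (25 * a) ≤ 1 * (25 * a) := by gcongr
      change a + σ * (25 * a) ≤ 26 * a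
      linarith
    set f : (Fin n → Fin n → ℝ) → ℝ≥0∞ := fun G => ∑ b, (E b).indicator 1 G with hf
    have hfm : Measurable f := Finset.measurable_fun_sum _ fun b _ =>
      measurable_one.indicator (hEm b)
    set c0 : ℝ≥0∞ := ENNReal.ofReal ((3 / 16) * 2 ^ n) with hc0
    have hint : ∫⁻ G, f G ∂(muM n n) ≤ ENNReal.ofReal (2 ^ n * (2 / (x' * σ) * (26 * a))) := by
      simp only [hf]
      rw [lintegral_finsetSum _ fun b _ => measurable_one.indicator (hEm b)]
      calc ∑ b, ∫⁻ G, (E b).indicator 1 G ∂(muM n n) = ∑ b, muM n n (E b) := by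
            refine Finset.sum_congr rfl fun b _ => lintegral_indicator_one (hEm b)
        _ ≤ ∑ _b : Fin n → Bool, ENNReal.ofReal (2 / (x' * σ) * (26 * a)) :=
            Finset.sum_le_sum fun b _ => hEb b
        _ = _ := by
            rw [Finset.sum_const, Finset.card_univ, Fintype.card_fun, Fintype.card_bool,
              Fintype.card_fin, nsmul_eq_mul,
              ENNReal.ofReal_mul (p := 2 ^ n) (by positivity), ENNReal.ofReal_pow (by norm_num)]
            simp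
    have hsub : {G : Fin n → Fin n → ℝ | (Abar + σ • Matrix.of G).det = 0 ∨
        x ≤ ‖Ph (Abar + σ • Matrix.of G)‖ * ‖Ph (Abar + σ • Matrix.of G)⁻¹‖} ⊆
        {G | (Abar + σ • Matrix.of G).det = 0} ∪ {G | c0 ≤ f G} := by
      intro G hG
      by_cases hdet : (Abar + σ • Matrix.of G).det = 0
      · exact Or.inl hdet
      · right
        rcases hG with hG | hG
        · exact absurd hG hdet
        · have h1 := pointwise_signs hn1 (Abar + σ • Matrix.of G) hx hG
          simp only [mem_ofPred_eq, hc0, hf]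
          have h2 : ∀ b, (E b).indicator (1 : (Fin n → Fin n → ℝ) → ℝ≥0∞) G =
              ENNReal.ofReal (if x / (4 * a) ≤ ‖Ph (Abar + σ • Matrix.of G)‖ *
                en ((Abar + σ • Matrix.of G)⁻¹.mulVec (wv b)) then (1 : ℝ) else 0) := by
            intro b
            by_cases hb : x / (4 * a) ≤ ‖Ph (Abar + σ • Matrix.of G)‖ *
                en ((Abar + σ • Matrix.of G)⁻¹.mulVec (wv b))
            · rw [if_pos hb, indicator_of_mem (show G ∈ E b from ⟨hdet, hb⟩)]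
              simp
            · rw [if_neg hb, indicator_of_notMem (show G ∉ E b from fun h => hb h.2)]
              simp
          simp_rw [h2]
          rw [← ENNReal.ofReal_sum_of_nonneg (fun b _ => by split_ifs <;> norm_num)]
          exact ENNReal.ofReal_le_ofReal h1
    refine (measure_mono hsub).trans ((measure_union_le _ _).trans ?_)
    rw [det_null Abar hσ, zero_add]
    have hmk := mul_meas_ge_le_lintegral (μ := muM n n) hfm c0
    have hc00 : c0 ≠ 0 := by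
      rw [hc0]
      simp only [ne_eq, ENNReal.ofReal_eq_zero, not_le]
      positivity
    have h3 : muM n n {G | c0 ≤ f G} ≤ ENNReal.ofReal (2 ^ n * (2 / (x' * σ) * (26 * a))) / c0 := by
      rw [ENNReal.le_div_iff_mul_le (Or.inl hc00) (Or.inl ENNReal.ofReal_ne_top), mul_comm]
      exact hmk.trans hint
    refine h3.trans ?_
    rw [hc0, ← ENNReal.ofReal_div_of_pos (by positivity)]
    apply ENNReal.ofReal_le_ofReal
    rw [hx']
    have h4 : 2 ^ n * (2 / (x / (4 * a) * σ) * (26 * a)) / (3 / 16 * 2 ^ n) =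
        (3328 / 3) * (a * a) / (x * σ) := by
      field_simp
      ring
    rw [h4, haa]
    gcongr
    norm_num

end Pool.Agent.H992R2
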