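import Mathlib

/-! Expansive maps of a finite dimensional space do not decrease Haar measure, and a weighted
version. -/

set_option autoImplicit false
open MeasureTheory Measure Set
open scoped ENNReal NNReal

namespace Pool.Agent.H992R2

variable {E : Type*} [NormedAddCommGroup E] [NormedSpace ℝ E] [FiniteDimensional ℝ E]
  [MeasurableSpace E] [BorelSpace E]

/-- An expansive map does not decrease (outer) Haar measure. -/
theorem addHaar_le_image (μ : Measure E) [IsAddHaarMeasure μ] {T : E → E}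
    (hT : AntilipschitzWith 1 T) (s : Set E) : μ s ≤ μ (T '' s) := by
  have h1 : μ = addHaarScalarFactor μ (μH[(Module.finrank ℝ E : ℝ)] : Measure E) •
      (μH[(Module.finrank ℝ E : ℝ)] : Measure E) :=
    isAddLeftInvariant_eq_smul μ _
  rw [h1]
  have h2 := hT.le_hausdorffMeasure_image (d := (Module.finrank ℝ E : ℝ)) (by positivity) s
  simp only [ENNReal.coe_one, ENNReal.one_rpow, one_mul] at h2
  simp only [Measure.smul_apply]
  gcongr

/-- Weighted version: if `T` is expansive, maps `S` into `F`, and the density satisfies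
`ρ x ≤ C ρ (T x)` on `S`, then the weighted measure of `S` is at most `2 C` times that of `F`. -/
theorem withDensity_le_of_expand (μ : Measure E) [IsAddHaarMeasure μ] {ρ : E → ℝ≥0∞}
    (hρ : Measurable ρ) (hρ0 : ∀ x, ρ x ≠ 0) (hρt : ∀ x, ρ x ≠ ∞) {T : E → E}
    (hT : AntilipschitzWith 1 T) {S F : Set E} (hF : MeasurableSet F)
    (hTS : ∀ x ∈ S, T x ∈ F) {C : ℝ≥0∞} (hC : ∀ x ∈ S, ρ x ≤ C * ρ (T x)) :
    (μ.withDensity ρ) S ≤ 2 * C * (μ.withDensity ρ) F := by
  set Q : ℤ → Set E := fun i => ρ ⁻¹' (Ico ((2 : ℝ≥0∞) ^ i) ((2 : ℝ≥0∞) ^ (i + 1))) with hQ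
  have hQm : ∀ i, MeasurableSet (Q i) := fun i => hρ measurableSet_Ico
  have h21 : (1 : ℝ≥0∞) < 2 := by norm_num
  have hcover : ∀ x, ∃ i, x ∈ Q i := by
    intro x
    obtain ⟨n, hn⟩ := ENNReal.exists_mem_Ico_zpow (hρ0 x) (hρt x) h21 (by simp)
    exact ⟨n, hn⟩
  have hdisj : Pairwise (Function.onFun Disjoint Q) := by
    intro i j hij
    rw [Function.onFun, Set.disjoint_left]
    intro x hi hj
    apply hij
    rcases lt_trichotomy i j with h | h | h
    · exfalso
      have h1 : (2 : ℝ≥0∞) ^ (i + 1) ≤ 2 ^ j := ENNReal.zpow_le_of_le h21.le (by omega)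
      exact absurd (lt_of_lt_of_le hi.2 h1) (not_lt.mpr hj.1)
    · exact h
    · exfalso
      have h1 : (2 : ℝ≥0∞) ^ (j + 1) ≤ 2 ^ i := ENNReal.zpow_le_of_le h21.le (by omega)
      exact absurd (lt_of_lt_of_le hj.2 h1) (not_lt.mpr hi.1)
  have hS : S ⊆ ⋃ i, {x | x ∈ S ∧ T x ∈ Q i} := by
    intro x hx
    obtain ⟨i, hi⟩ := hcover (T x)
    exact mem_iUnion.mpr ⟨i, hx, hi⟩
  have hpiece : ∀ i, (μ.withDensity ρ) {x | x ∈ S ∧ T x ∈ Q i}
      ≤ 2 * C * (μ.withDensity ρ) (F ∩ Q i) := by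
    intro i
    set Si := {x | x ∈ S ∧ T x ∈ Q i} with hSi
    set M := toMeasurable μ Si
    set H : Set E := {x | ρ x ≤ C * 2 ^ (i + 1)} with hH
    have hHm : MeasurableSet H := hρ measurableSet_Iic
    have hsub : Si ⊆ M ∩ H := by
      intro x hx
      refine ⟨subset_toMeasurable μ Si hx, ?_⟩
      calc ρ x ≤ C * ρ (T x) := hC x hx.1
        _ ≤ C * 2 ^ (i + 1) := by gcongr; exact hx.2.2.le
    have h1 : (μ.withDensity ρ) (M ∩ H) ≤ C * 2 ^ (i + 1) * μ M := by
      rw [withDensity_apply _ ((measurableSet_toMeasurable _ _).inter hHm)]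
      calc ∫⁻ a in M ∩ H, ρ a ∂μ ≤ ∫⁻ a in M ∩ H, (C * 2 ^ (i + 1)) ∂μ := by
            apply setLIntegral_mono measurable_const
            intro x hx
            exact hx.2
        _ = C * 2 ^ (i + 1) * μ (M ∩ H) := by rw [setLIntegral_const]
        _ ≤ C * 2 ^ (i + 1) * μ M := by gcongr; exact inter_subset_left
    have h2 : μ M ≤ μ (F ∩ Q i) := by
      rw [measure_toMeasurable]
      refine (addHaar_le_image μ hT Si).trans (measure_mono ?_)
      rintro _ ⟨x, hx, rfl⟩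
      exact ⟨hTS x hx.1, hx.2⟩
    have h3 : (2 : ℝ≥0∞) ^ i * μ (F ∩ Q i) ≤ (μ.withDensity ρ) (F ∩ Q i) := by
      rw [withDensity_apply _ (hF.inter (hQm i)), ← setLIntegral_const]
      apply setLIntegral_mono hρ
      intro x hx
      exact hx.2.1
    calc (μ.withDensity ρ) Si ≤ (μ.withDensity ρ) (M ∩ H) := measure_mono hsub
      _ ≤ C * 2 ^ (i + 1) * μ M := h1
      _ ≤ C * 2 ^ (i + 1) * μ (F ∩ Q i) := by gcongr
      _ = 2 * C * (2 ^ i * μ (F ∩ Q i)) := by
          rw [ENNReal.zpow_add (by norm_num) (by simp), zpow_one]; ring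
      _ ≤ 2 * C * (μ.withDensity ρ) (F ∩ Q i) := by gcongr
  calc (μ.withDensity ρ) S ≤ (μ.withDensity ρ) (⋃ i, {x | x ∈ S ∧ T x ∈ Q i}) := measure_mono hS
    _ ≤ ∑' i, (μ.withDensity ρ) {x | x ∈ S ∧ T x ∈ Q i} := measure_iUnion_le _
    _ ≤ ∑' i, 2 * C * (μ.withDensity ρ) (F ∩ Q i) := ENNReal.tsum_le_tsum hpiece
    _ = 2 * C * ∑' i, (μ.withDensity ρ) (F ∩ Q i) := ENNReal.tsum_mul_left
    _ = 2 * C * (μ.withDensity ρ) (⋃ i, F ∩ Q i) := by
        rw [measure_iUnion]
        · intro i j hij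
          exact (hdisj hij).mono inter_subset_right inter_subset_right
        · exact fun i => hF.inter (hQm i)
    _ ≤ 2 * C * (μ.withDensity ρ) F := by
        gcongr
        exact iUnion_subset fun i => inter_subset_left

end Pool.Agent.H992R2
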