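import Mathlib

/-! Densities of product Gaussian measures on Euclidean spaces. -/

set_option autoImplicit false
open MeasureTheory Measure Set ProbabilityTheory
open scoped ENNReal NNReal

namespace Pool.Agent.H992R2

theorem lintegral_fin_prod {n : ℕ} (μ : Fin n → Measure ℝ)
    [∀ i, SigmaFinite (μ i)] (f : Fin n → ℝ → ℝ≥0∞) (hf : ∀ i, Measurable (f i)) :
    ∫⁻ x : Fin n → ℝ, ∏ i, f i (x i) ∂(Measure.pi μ) = ∏ i, ∫⁻ x, f i x ∂(μ i) := by
  induction n with
  | zero => simp
  | succ n n_ih =>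
      calc
        _ = ∫⁻ x : ℝ × (Fin n → ℝ),
            f 0 x.1 * ∏ i : Fin n, f (Fin.succ i) (x.2 i)
            ∂((μ 0).prod (Measure.pi (fun i ↦ μ i.succ))) := by
          rw [← ((measurePreserving_piFinSuccAbove μ 0).symm).lintegral_comp_emb
            (MeasurableEquiv.measurableEmbedding _)]
          simp_rw [MeasurableEquiv.piFinSuccAbove_symm_apply, Fin.insertNthEquiv,
            Fin.prod_univ_succ, Fin.insertNth_zero, Equiv.coe_fn_mk, Fin.cons_succ,
            Fin.zero_succAbove, cast_eq, Fin.cons_zero]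
        _ = (∫⁻ x, f 0 x ∂μ 0)
            * ∏ i : Fin n, ∫⁻ (x : ℝ), f (Fin.succ i) x ∂(μ i.succ) := by
          rw [← n_ih (fun i => μ i.succ) (fun i => f i.succ) (fun i => hf _)]
          exact lintegral_prod_mul (hf 0).aemeasurable (Finset.measurable_prod _ (fun i _ =>
            (hf _).comp (measurable_pi_apply i))).aemeasurable
        _ = ∏ i, ∫⁻ x, f i x ∂(μ i) := by rw [Fin.prod_univ_succ]

theorem lintegral_fintype_prod {ι : Type*} [Fintype ι] (μ : ι → Measure ℝ)
    [∀ i, SigmaFinite (μ i)] (f : ι → ℝ → ℝ≥0∞) (hf : ∀ i, Measurable (f i)) :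
    ∫⁻ x : ι → ℝ, ∏ i, f i (x i) ∂(Measure.pi μ) = ∏ i, ∫⁻ x, f i x ∂(μ i) := by
  let e := (Fintype.equivFin ι).symm
  rw [← (measurePreserving_piCongrLeft _ e).lintegral_comp_emb
    (MeasurableEquiv.measurableEmbedding _)]
  simp_rw [← e.prod_comp, MeasurableEquiv.coe_piCongrLeft, Equiv.piCongrLeft_apply_apply]
  exact lintegral_fin_prod (fun i => μ (e i)) (fun i => f (e i)) (fun i => hf _)

theorem pi_withDensity_real {ι : Type*} [Fintype ι] (g : ι → ℝ → ℝ≥0∞) (hg : ∀ i, Measurable (g i))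
    (_hs : ∀ i, SigmaFinite ((volume : Measure ℝ).withDensity (g i))) :
    Measure.pi (fun i => (volume : Measure ℝ).withDensity (g i)) =
      (volume : Measure (ι → ℝ)).withDensity (fun y => ∏ i, g i (y i)) := by
  rw [volume_pi]
  apply Measure.pi_eq
  intro s hs
  rw [withDensity_apply _ (MeasurableSet.univ_pi hs), Measure.restrict_pi_pi,
    lintegral_fintype_prod _ _ hg]
  apply Finset.prod_congr rfl
  intro i _
  rw [withDensity_apply _ (hs i)]

/-- The Gaussian density on `EuclideanSpace ℝ ι` with variance `v`. -/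
noncomputable def gdens (ι : Type*) [Fintype ι] (v : ℝ≥0) (x : EuclideanSpace ℝ ι) : ℝ :=
  ((Real.sqrt (2 * Real.pi * v))⁻¹) ^ (Fintype.card ι) * Real.exp (-‖x‖ ^ 2 / (2 * v))

theorem gdens_pos (ι : Type*) [Fintype ι] {v : ℝ≥0} (hv : v ≠ 0) (x : EuclideanSpace ℝ ι) :
    0 < gdens ι v x := by
  have : (0 : ℝ) < v := by positivity
  unfold gdens
  positivity

theorem continuous_gdens (ι : Type*) [Fintype ι] (v : ℝ≥0) : Continuous (gdens ι v) := by
  unfold gdens
  fun_prop

/-- The product Gaussian measure on Euclidean space is given by its density. -/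
theorem map_toLp_pi_gaussian (ι : Type*) [Fintype ι] {v : ℝ≥0} (hv : v ≠ 0) :
    (Measure.pi fun _ : ι => gaussianReal 0 v).map (WithLp.toLp 2) =
      (volume : Measure (EuclideanSpace ℝ ι)).withDensity
        (fun x => ENNReal.ofReal (gdens ι v x)) := by
  have h3 : (fun _ : ι => gaussianReal 0 v) =
      fun _ : ι => (volume : Measure ℝ).withDensity (gaussianPDF 0 v) := by
    funext _
    exact gaussianReal_of_var_ne_zero 0 hv
  have hsf : ∀ _ : ι, SigmaFinite ((volume : Measure ℝ).withDensity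
      (gaussianPDF 0 v)) := by
    intro _
    rw [← gaussianReal_of_var_ne_zero 0 hv]
    infer_instance
  rw [h3, pi_withDensity_real (fun _ : ι => gaussianPDF 0 v) (fun _ => measurable_gaussianPDF 0 v) hsf]
  have h1 : ∀ y : ι → ℝ, ∏ i, gaussianPDF 0 v (y i) =
      ENNReal.ofReal (gdens ι v (WithLp.toLp 2 y)) := by
    intro y
    have h2 : ∀ i, gaussianPDF 0 v (y i) =
        ENNReal.ofReal ((Real.sqrt (2 * Real.pi * v))⁻¹ * Real.exp (-(y i ^ 2) / (2 * v))) := by
      intro i
      rw [gaussianPDF_def, gaussianPDFReal_def]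
      simp
    simp_rw [h2]
    rw [← ENNReal.ofReal_prod_of_nonneg (fun i _ => by positivity)]
    congr 1
    rw [Finset.prod_mul_distrib, Finset.prod_const, Finset.card_univ, ← Real.exp_sum]
    unfold gdens
    congr 2
    rw [← Finset.sum_div, Finset.sum_neg_distrib, EuclideanSpace.norm_sq_eq]
    simp
  simp_rw [h1]
  have hmp := PiLp.volume_preserving_toLp ι
  let e : (ι → ℝ) ≃ᵐ EuclideanSpace ℝ ι := MeasurableEquiv.toLp 2 (ι → ℝ)
  ext s hs
  have hmeas : Measurable (WithLp.toLp 2 : (ι → ℝ) → EuclideanSpace ℝ ι) := hmp.measurable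
  rw [Measure.map_apply hmeas hs, withDensity_apply _ (hmeas hs), withDensity_apply _ hs,
    ← hmp.setLIntegral_comp_preimage hs]
  exact (continuous_gdens ι v).measurable.ennreal_ofReal

/-- Currying preserves product measures. -/
theorem map_uncurry_pi_pi {m n : ℕ} (ν : Measure ℝ) [IsProbabilityMeasure ν] :
    (Measure.pi (fun _ : Fin m => Measure.pi (fun _ : Fin n => ν))).map
      (fun G : Fin m → Fin n → ℝ => fun p : Fin m × Fin n => G p.1 p.2) =
      Measure.pi (fun _ : Fin m × Fin n => ν) := by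
  symm
  apply Measure.pi_eq
  intro s hs
  rw [Measure.map_apply (by fun_prop) (MeasurableSet.univ_pi hs)]
  have : (fun G : Fin m → Fin n → ℝ => fun p : Fin m × Fin n => G p.1 p.2) ⁻¹' (Set.univ.pi s) =
      Set.univ.pi fun i => Set.univ.pi fun j => s (i, j) := by
    ext G
    simp [Set.mem_pi]
  rw [this, Measure.pi_pi]
  simp_rw [Measure.pi_pi]
  rw [Fintype.prod_prod_type]

end Pool.Agent.H992R2
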