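import Mathlib

/-! Sorted singular value decompositions, the Ky Fan inequality and the expansive map
`A ↦ A + t ∑_{j<k} u_j v_jᵀ`. -/

set_option autoImplicit false
open Set Finset

namespace Pool.Agent.H992R2

/-- Euclidean space. -/
abbrev U (m : ℕ) := EuclideanSpace ℝ (Fin m)
/-- Matrices with the Frobenius inner product. -/
abbrev W (m n : ℕ) := EuclideanSpace ℝ (Fin m × Fin n)

variable {m n : ℕ}

/-- The rank one matrix `u vᵀ`. -/
noncomputable def tens (u : U m) (v : U n) : W m n := WithLp.toLp 2 (fun p => u p.1 * v p.2)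

lemma tens_apply (u : U m) (v : U n) (p : Fin m × Fin n) : tens u v p = u p.1 * v p.2 := rfl

lemma inner_tens (u x : U m) (v y : U n) :
    inner ℝ (tens u v) (tens x y) = inner ℝ u x * inner ℝ v y := by
  simp only [PiLp.inner_apply, tens_apply, RCLike.inner_apply, conj_trivial]
  rw [Fintype.sum_prod_type, Finset.sum_mul_sum]
  refine Finset.sum_congr rfl fun i _ => Finset.sum_congr rfl fun j _ => by ring

/-- indices below `k` -/
def low (m k : ℕ) : Finset (Fin m) := Finset.univ.filter fun l => (l : ℕ) < k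

lemma mem_low {k : ℕ} {l : Fin m} : l ∈ low m k ↔ (l : ℕ) < k := by simp [low]

lemma card_low {k : ℕ} (hk : k ≤ m) : (low m k).card = k := by
  have : low m k = (Finset.univ : Finset (Fin k)).map (Fin.castLEEmb hk) := by
    ext l
    simp only [mem_low, Finset.mem_map, Finset.mem_univ, true_and]
    constructor
    · intro h
      exact ⟨⟨l, h⟩, by ext; simp⟩
    · rintro ⟨a, rfl⟩
      simp
  rw [this, Finset.card_map, Finset.card_univ, Fintype.card_fin]

/-- `∑_{l<k} x_l y_lᵀ`. -/
noncomputable def PW (k : ℕ) (x : Fin m → U m) (y : Fin m → U n) : W m n :=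
  ∑ l ∈ low m k, tens (x l) (y l)

/-- A sorted singular value decomposition. -/
structure IsSVD (A : W m n) (s : Fin m → ℝ) (u : Fin m → U m) (v : Fin m → U n) : Prop where
  anti : Antitone s
  nonneg : ∀ j, 0 ≤ s j
  ou : Orthonormal ℝ u
  ov : Orthonormal ℝ v
  eq : A = ∑ j, s j • tens (u j) (v j)

lemma bessel {d : ℕ} {v : Fin m → U d} (hv : Orthonormal ℝ v) (x : U d) (hx : ‖x‖ = 1)
    (S : Finset (Fin m)) : ∑ l ∈ S, (inner ℝ (v l) x) ^ 2 ≤ 1 := by
  have := hv.sum_inner_products_le x (s := S)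
  simp only [Real.norm_eq_abs, sq_abs, hx, one_pow] at this
  exact this

/-- The pivot inequality. -/
lemma pivot {s d : Fin m → ℝ} (hs : Antitone s) (hs0 : ∀ j, 0 ≤ s j) (hd0 : ∀ j, 0 ≤ d j)
    (hd1 : ∀ j, d j ≤ 1) {k : ℕ} (hk : k ≤ m) (hd : ∑ j, d j ≤ k) :
    ∑ j, s j * d j ≤ ∑ j ∈ low m k, s j := by
  obtain ⟨p, hp0, hp1, hp2⟩ : ∃ p : ℝ, 0 ≤ p ∧ (∀ j : Fin m, (j : ℕ) < k → p ≤ s j) ∧
      (∀ j : Fin m, k ≤ (j : ℕ) → s j ≤ p) := by
    by_cases h : k < m
    · refine ⟨s ⟨k, h⟩, hs0 _, fun j hj => hs ?_, fun j hj => hs ?_⟩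
      · exact Fin.mk_le_mk.mpr hj.le |>.trans (le_of_eq rfl)
      · exact Fin.mk_le_mk.mpr hj
    · refine ⟨0, le_rfl, fun j _ => hs0 j, fun j hj => ?_⟩
      exact absurd j.2 (by omega)
  have h1 : ∀ j : Fin m, s j * d j - (if (j : ℕ) < k then s j else 0) ≤
      p * (d j - (if (j : ℕ) < k then 1 else 0)) := by
    intro j
    split_ifs with h
    · have := hp1 j h
      nlinarith [hd1 j]
    · have := hp2 j (by omega)
      nlinarith [hd0 j]
  have h2 : ∑ j : Fin m, (s j * d j - (if (j : ℕ) < k then s j else 0)) ≤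
      ∑ j : Fin m, p * (d j - (if (j : ℕ) < k then 1 else 0)) :=
    Finset.sum_le_sum fun j _ => h1 j
  rw [Finset.sum_sub_distrib, ← Finset.mul_sum, Finset.sum_sub_distrib] at h2
  have h3 : ∑ j : Fin m, (if (j : ℕ) < k then s j else 0) = ∑ j ∈ low m k, s j := by
    rw [low, Finset.sum_filter]
  have h4 : ∑ j : Fin m, (if (j : ℕ) < k then (1 : ℝ) else 0) = k := by
    rw [← Finset.sum_filter]
    have := card_low hk
    rw [low] at this
    simp [this]
  rw [h3, h4] at h2
  nlinarith [mul_nonneg hp0 (sub_nonneg.mpr hd)]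

/-- **Ky Fan's inequality.** -/
theorem kyfan {A : W m n} {s : Fin m → ℝ} {u : Fin m → U m} {v : Fin m → U n}
    (h : IsSVD A s u v) {x : Fin m → U m} {y : Fin m → U n} (hx : Orthonormal ℝ x)
    (hy : Orthonormal ℝ y) {k : ℕ} (hk : k ≤ m) :
    inner ℝ A (PW k x y) ≤ ∑ j ∈ low m k, s j := by
  set d : Fin m → ℝ := fun j => (1 / 2) * ∑ l ∈ low m k,
    ((inner ℝ (u j) (x l)) ^ 2 + (inner ℝ (v j) (y l)) ^ 2) with hd
  have hd0 : ∀ j, 0 ≤ d j := fun j => by positivity
  have hd1 : ∀ j, d j ≤ 1 := by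
    intro j
    have h1 := bessel hx (u j) (h.ou.1 j) (low m k)
    have h2 := bessel hy (v j) (h.ov.1 j) (low m k)
    simp only [hd, Finset.sum_add_distrib]
    simp_rw [real_inner_comm (u j)] at h1
    simp_rw [real_inner_comm (v j)] at h2
    linarith
  have hdk : ∑ j, d j ≤ k := by
    simp only [hd, ← Finset.mul_sum]
    rw [Finset.sum_comm]
    have : ∀ l ∈ low m k, ∑ j, ((inner ℝ (u j) (x l)) ^ 2 + (inner ℝ (v j) (y l)) ^ 2) ≤ 2 := by
      intro l _
      rw [Finset.sum_add_distrib]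
      have h1 := bessel h.ou (x l) (hx.1 l) Finset.univ
      have h2 := bessel h.ov (y l) (hy.1 l) Finset.univ
      linarith
    have h3 := Finset.sum_le_sum this
    rw [Finset.sum_const, card_low hk, nsmul_eq_mul] at h3
    linarith
  have h1 : inner ℝ A (PW k x y) = ∑ j, s j * ∑ l ∈ low m k,
      inner ℝ (u j) (x l) * inner ℝ (v j) (y l) := by
    rw [h.eq, PW, sum_inner]
    refine Finset.sum_congr rfl fun j _ => ?_
    rw [inner_smul_left, inner_sum]
    simp only [conj_trivial, inner_tens]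
  rw [h1]
  calc ∑ j, s j * ∑ l ∈ low m k, inner ℝ (u j) (x l) * inner ℝ (v j) (y l)
      ≤ ∑ j, s j * d j := by
        refine Finset.sum_le_sum fun j _ => mul_le_mul_of_nonneg_left ?_ (h.nonneg j)
        simp only [hd]
        rw [Finset.mul_sum]
        refine Finset.sum_le_sum fun l _ => ?_
        nlinarith [sq_nonneg (inner ℝ (u j) (x l) - inner ℝ (v j) (y l) : ℝ)]
    _ ≤ _ := pivot h.anti h.nonneg hd0 hd1 hk hdk

theorem kyfan_self {A : W m n} {s : Fin m → ℝ} {u : Fin m → U m} {v : Fin m → U n}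
    (h : IsSVD A s u v) (k : ℕ) :
    inner ℝ A (PW k u v) = ∑ j ∈ low m k, s j := by
  have hou := orthonormal_iff_ite.mp h.ou
  have hov := orthonormal_iff_ite.mp h.ov
  rw [h.eq, PW, inner_sum]
  refine Finset.sum_congr rfl fun l _ => ?_
  rw [sum_inner]
  simp only [inner_smul_left, conj_trivial, inner_tens, hou, hov]
  rw [Finset.sum_eq_single l]
  · simp
  · intro b _ hb
    simp [hb]
  · simp

lemma norm_PW_sq {x : Fin m → U m} {y : Fin m → U n} (hx : Orthonormal ℝ x)
    (hy : Orthonormal ℝ y) {k : ℕ} (hk : k ≤ m) : ‖PW k x y‖ ^ 2 = k := by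
  have hou := orthonormal_iff_ite.mp hx
  have hov := orthonormal_iff_ite.mp hy
  rw [← real_inner_self_eq_norm_sq, PW, sum_inner]
  have : ∀ l ∈ low m k, inner ℝ (tens (x l) (y l)) (∑ l ∈ low m k, tens (x l) (y l)) = (1 : ℝ) := by
    intro l hl
    rw [inner_sum]
    simp only [inner_tens, hou, hov]
    rw [Finset.sum_eq_single l]
    · simp
    · intro b _ hb
      simp [Ne.symm hb]
    · intro h; exact absurd hl h
  rw [Finset.sum_congr rfl this, Finset.sum_const, card_low hk]
  simp

/-- Uniqueness of the sorted singular values. -/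
theorem svd_unique {A : W m n} {s s' : Fin m → ℝ} {u u' : Fin m → U m} {v v' : Fin m → U n}
    (h : IsSVD A s u v) (h' : IsSVD A s' u' v') : s = s' := by
  have key : ∀ k ≤ m, ∑ j ∈ low m k, s j = ∑ j ∈ low m k, s' j := by
    intro k hk
    apply le_antisymm
    · rw [← kyfan_self h k]
      exact kyfan h' h.ou h.ov hk
    · rw [← kyfan_self h' k]
      exact kyfan h h'.ou h'.ov hk
  funext j
  have hj : low m ((j : ℕ) + 1) = insert j (low m j) := by
    ext l
    simp only [mem_low, Finset.mem_insert, Fin.ext_iff]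
    omega
  have hnot : j ∉ low m j := by simp [mem_low]
  have h1 := key (j + 1) (by omega)
  have h2 := key j (by omega)
  rw [hj, Finset.sum_insert hnot, Finset.sum_insert hnot] at h1
  linarith

/-! ### Existence -/

theorem exists_svd_of_spectral (hmn : m ≤ n) (A : W m n) {lam : Fin m → ℝ} {u : Fin m → U m}
    (hlam : Antitone lam) (hu : Orthonormal ℝ u) (hb : ∀ x : U m, x = ∑ j, inner ℝ (u j) x • u j)
    (h : ∀ i j, inner ℝ (WithLp.toLp 2 fun b => ∑ a, A (a, b) * u i a : U n)
      (WithLp.toLp 2 fun b => ∑ a, A (a, b) * u j a : U n) = if i = j then lam i else 0) :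
    ∃ v : Fin m → U n, IsSVD A (fun j => Real.sqrt (lam j)) u v := by
  set y : Fin m → U n := fun j => WithLp.toLp 2 fun b => ∑ a, A (a, b) * u j a with hy
  have hyy : ∀ i j, inner ℝ (y i) (y j) = if i = j then lam i else 0 := h
  have hlam0 : ∀ j, 0 ≤ lam j := by
    intro j
    have := hyy j j
    rw [if_pos rfl] at this
    rw [← this]
    exact real_inner_self_nonneg
  have hny : ∀ j, ‖y j‖ = Real.sqrt (lam j) := by
    intro j
    rw [norm_eq_sqrt_real_inner, hyy j j, if_pos rfl]
  -- extension to an orthonormal basis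
  let v' : Fin n → U n := fun i => if hi : (i : ℕ) < m then
    (Real.sqrt (lam ⟨i, hi⟩))⁻¹ • y ⟨i, hi⟩ else 0
  let S : Set (Fin n) := {i | ∃ hi : (i : ℕ) < m, 0 < lam ⟨i, hi⟩}
  have hv' : Orthonormal ℝ (S.domRestrict v') := by
    rw [orthonormal_iff_ite]
    rintro ⟨i, hi, hi0⟩ ⟨j, hj, hj0⟩
    change inner ℝ (v' i) (v' j) = _
    simp only [v', hi, hj, dif_pos, inner_smul_left, inner_smul_right,
      conj_trivial, hyy]
    by_cases hij : i = j
    · subst hij
      simp only [if_true]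
      have : Real.sqrt (lam ⟨i, hi⟩) ≠ 0 := (Real.sqrt_pos.mpr hi0).ne'
      field_simp
      rw [Real.sq_sqrt hi0.le]
    · have h2 : (⟨(i : ℕ), hi⟩ : Fin m) ≠ ⟨j, hj⟩ := by
        intro hc
        apply hij
        ext
        exact Fin.mk.inj_iff.mp hc
      simp [h2, hij]
  obtain ⟨b, hb'⟩ := hv'.exists_orthonormalBasis_extension_of_card_eq (by simp)
  let e : Fin m → Fin n := Fin.castLE hmn
  have he : Function.Injective e := Fin.castLE_injective hmn
  have hyv : ∀ j, y j = Real.sqrt (lam j) • b (e j) := by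
    intro j
    rcases (hlam0 j).lt_or_eq with h0 | h0
    · have hmem : e j ∈ S := ⟨by simp [e], by simpa [e] using h0⟩
      rw [hb' _ hmem]
      have : ((e j : Fin n) : ℕ) < m := by simp [e]
      simp only [v', this, dif_pos]
      have h2 : (⟨((e j : Fin n) : ℕ), this⟩ : Fin m) = j := by ext; simp [e]
      rw [h2, smul_smul, mul_inv_cancel₀ (Real.sqrt_pos.mpr h0).ne', one_smul]
    · have : ‖y j‖ = 0 := by rw [hny, ← h0, Real.sqrt_zero]
      rw [norm_eq_zero.mp this, ← h0, Real.sqrt_zero, zero_smul]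
  refine ⟨fun j => b (e j), ?_, fun j => Real.sqrt_nonneg _, hu, b.orthonormal.comp e he, ?_⟩
  · intro i j hij
    exact Real.sqrt_le_sqrt (hlam hij)
  · ext ⟨a, c⟩
    have h1 : ∀ j, (y j) c = Real.sqrt (lam j) * b (e j) c := by
      intro j
      rw [hyv j]; rfl
    have h2 : A (a, c) = ∑ j, u j a * y j c := by
      set z : U m := WithLp.toLp 2 fun a => A (a, c) with hz
      have h3 := congrArg (fun w : U m => w a) (hb z)
      have h4 : z a = A (a, c) := rfl
      simp only [h4] at h3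
      rw [h3, WithLp.ofLp_sum, Finset.sum_apply]
      refine Finset.sum_congr rfl fun j _ => ?_
      rw [PiLp.smul_apply, smul_eq_mul, mul_comm]
      congr 1
    rw [h2]
    rw [WithLp.ofLp_sum, Finset.sum_apply]
    refine Finset.sum_congr rfl fun j _ => ?_
    rw [h1, PiLp.smul_apply, tens_apply, smul_eq_mul]
    ring

/-- Sorted singular value decompositions, with the singular values given by the eigenvalues of
`M Mᵀ`. -/
theorem exists_svd (hmn : m ≤ n) (M : Matrix (Fin m) (Fin n) ℝ) :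
    ∃ (e : Fin m ≃ Fin m) (u : Fin m → U m) (v : Fin m → U n),
      IsSVD (WithLp.toLp 2 fun p => M p.1 p.2)
        (fun j => Real.sqrt ((Matrix.isHermitian_mul_conjTranspose_self M).eigenvalues (e j))) u v := by
  set hA := Matrix.isHermitian_mul_conjTranspose_self M with hAdef
  let c : Fin m ≃ Fin (Fintype.card (Fin m)) := finCongr (Fintype.card_fin m).symm
  let f : Fin (Fintype.card (Fin m)) ≃ Fin m := Fintype.equivOfCardEq (Fintype.card_fin _)
  let e : Fin m ≃ Fin m := c.trans f
  have hlam : Antitone fun j => hA.eigenvalues (e j) := by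
    intro i j hij
    have h1 : ∀ j, hA.eigenvalues (e j) = hA.eigenvalues₀ (c j) := by
      intro j
      simp only [Matrix.IsHermitian.eigenvalues, e, Equiv.trans_apply]
      congr 1
      exact f.symm_apply_apply _
    simp only [h1]
    apply hA.eigenvalues₀_antitone
    simpa [c] using hij
  have hu : Orthonormal ℝ fun j => hA.eigenvectorBasis (e j) :=
    hA.eigenvectorBasis.orthonormal.comp e e.injective
  have hb : ∀ x : U m, x = ∑ j, inner ℝ (hA.eigenvectorBasis (e j)) x •
      hA.eigenvectorBasis (e j) := by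
    intro x
    conv_lhs => rw [← hA.eigenvectorBasis.sum_repr' x]
    exact (Equiv.sum_comp e fun j => inner ℝ (hA.eigenvectorBasis j) x • hA.eigenvectorBasis j).symm
  have hin : ∀ i j, inner ℝ (WithLp.toLp 2 fun b => ∑ a, (WithLp.toLp 2 (fun p : Fin m × Fin n =>
        M p.1 p.2) : W m n) (a, b) * (hA.eigenvectorBasis (e i)) a : U n)
      (WithLp.toLp 2 fun b => ∑ a, (WithLp.toLp 2 (fun p : Fin m × Fin n =>
        M p.1 p.2) : W m n) (a, b) * (hA.eigenvectorBasis (e j)) a : U n) =
        if i = j then hA.eigenvalues (e i) else 0 := by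
    intro i j
    have h1 := hA.mulVec_eigenvectorBasis (e i)
    have hon := orthonormal_iff_ite.mp hA.eigenvectorBasis.orthonormal (e i) (e j)
    have h2 : inner ℝ (WithLp.toLp 2 fun b => ∑ a, (WithLp.toLp 2 (fun p : Fin m × Fin n =>
        M p.1 p.2) : W m n) (a, b) * (hA.eigenvectorBasis (e i)) a : U n)
      (WithLp.toLp 2 fun b => ∑ a, (WithLp.toLp 2 (fun p : Fin m × Fin n =>
        M p.1 p.2) : W m n) (a, b) * (hA.eigenvectorBasis (e j)) a : U n) =
        dotProduct (M.transpose.mulVec ⇑(hA.eigenvectorBasis (e i)))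
          (M.transpose.mulVec ⇑(hA.eigenvectorBasis (e j))) := by
      simp only [PiLp.inner_apply, RCLike.inner_apply, conj_trivial, Matrix.mulVec, dotProduct,
        Matrix.transpose_apply]
      refine Finset.sum_congr rfl fun b _ => by ring
    rw [h2, Matrix.dotProduct_mulVec, Matrix.vecMul_transpose, Matrix.mulVec_mulVec]
    rw [← Matrix.conjTranspose_eq_transpose_of_trivial, h1, smul_dotProduct]
    have h3 : dotProduct ⇑(hA.eigenvectorBasis (e i)) ⇑(hA.eigenvectorBasis (e j)) =
        inner ℝ (hA.eigenvectorBasis (e i)) (hA.eigenvectorBasis (e j)) := by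
      simp only [PiLp.inner_apply, RCLike.inner_apply, conj_trivial, dotProduct]
      refine Finset.sum_congr rfl fun b _ => by ring
    rw [h3, hon]
    simp only [e.injective.eq_iff, smul_eq_mul, mul_ite, mul_one, mul_zero]
  obtain ⟨v, hv⟩ := exists_svd_of_spectral hmn (WithLp.toLp 2 fun p => M p.1 p.2) hlam hu hb hin
  exact ⟨e, _, v, hv⟩

theorem exists_svd' (hmn : m ≤ n) (A : W m n) :
    ∃ d : (Fin m → ℝ) × (Fin m → U m) × (Fin m → U n), IsSVD A d.1 d.2.1 d.2.2 := by
  obtain ⟨e, u, v, h⟩ := exists_svd hmn (Matrix.of fun i j => A (i, j))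
  exact ⟨⟨_, u, v⟩, h⟩

section Top

variable (hmn : m ≤ n)

/-- A choice of sorted singular value decomposition. -/
noncomputable def svdData (A : W m n) : (Fin m → ℝ) × (Fin m → U m) × (Fin m → U n) :=
  Classical.choose (exists_svd' hmn A)

/-- The sorted singular values. -/
noncomputable def sig (A : W m n) : Fin m → ℝ := (svdData hmn A).1

/-- The top partial isometry `∑_{j<k} u_j v_jᵀ`. -/
noncomputable def Top (k : ℕ) (A : W m n) : W m n :=
  PW k (svdData hmn A).2.1 (svdData hmn A).2.2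

/-- The expansive map. -/
noncomputable def TT (k : ℕ) (t : ℝ) (A : W m n) : W m n := A + t • Top hmn k A

lemma svdData_spec (A : W m n) :
    IsSVD A (sig hmn A) (svdData hmn A).2.1 (svdData hmn A).2.2 :=
  Classical.choose_spec (exists_svd' hmn A)

lemma sig_eq {A : W m n} {s : Fin m → ℝ} {u : Fin m → U m} {v : Fin m → U n}
    (h : IsSVD A s u v) : sig hmn A = s := svd_unique (svdData_spec hmn A) h

lemma inner_Top_self (k : ℕ) (A : W m n) :
    inner ℝ A (Top hmn k A) = ∑ j ∈ low m k, sig hmn A j :=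
  kyfan_self (svdData_spec hmn A) k

lemma inner_Top_le {k : ℕ} (hk : k ≤ m) (A B : W m n) :
    inner ℝ A (Top hmn k B) ≤ ∑ j ∈ low m k, sig hmn A j :=
  kyfan (svdData_spec hmn A) (svdData_spec hmn B).ou (svdData_spec hmn B).ov hk

lemma norm_Top_sq {k : ℕ} (hk : k ≤ m) (A : W m n) : ‖Top hmn k A‖ ^ 2 = k :=
  norm_PW_sq (svdData_spec hmn A).ou (svdData_spec hmn A).ov hk

lemma norm_Top {k : ℕ} (hk : k ≤ m) (A : W m n) : ‖Top hmn k A‖ = Real.sqrt k := by
  rw [← norm_Top_sq hmn hk A, Real.sqrt_sq (norm_nonneg _)]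

lemma Top_monotone {k : ℕ} (hk : k ≤ m) (A B : W m n) :
    0 ≤ inner ℝ (A - B) (Top hmn k A - Top hmn k B) := by
  have h1 := inner_Top_le hmn hk A B
  have h2 := inner_Top_le hmn hk B A
  rw [← inner_Top_self] at h1 h2
  rw [inner_sub_left, inner_sub_right, inner_sub_right]
  linarith

lemma TT_expand {k : ℕ} (hk : k ≤ m) {t : ℝ} (ht : 0 ≤ t) (A B : W m n) :
    ‖A - B‖ ≤ ‖TT hmn k t A - TT hmn k t B‖ := by
  have h1 : TT hmn k t A - TT hmn k t B = (A - B) + t • (Top hmn k A - Top hmn k B) := by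
    simp only [TT]; module
  have h2 : ‖A - B‖ ^ 2 ≤ ‖TT hmn k t A - TT hmn k t B‖ ^ 2 := by
    rw [h1, norm_add_sq_real, inner_smul_right]
    have := mul_nonneg ht (Top_monotone hmn hk A B)
    nlinarith [sq_nonneg ‖t • (Top hmn k A - Top hmn k B)‖]
  exact le_of_sq_le_sq h2 (norm_nonneg _)

lemma TT_antilipschitz {k : ℕ} (hk : k ≤ m) {t : ℝ} (ht : 0 ≤ t) (A0 : W m n) :
    AntilipschitzWith 1 (fun G => TT hmn k t (A0 + G) - A0) := by
  apply AntilipschitzWith.of_le_mul_dist
  intro x y
  rw [dist_eq_norm, dist_eq_norm]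
  have := TT_expand hmn hk ht (A0 + x) (A0 + y)
  simpa using this

lemma sig_TT {k : ℕ} {t : ℝ} (ht : 0 ≤ t) (A : W m n) :
    sig hmn (TT hmn k t A) = fun j => sig hmn A j + (if (j : ℕ) < k then t else 0) := by
  have h := svdData_spec hmn A
  apply sig_eq hmn (u := (svdData hmn A).2.1) (v := (svdData hmn A).2.2)
  refine ⟨?_, ?_, h.ou, h.ov, ?_⟩
  · intro i j hij
    have h1 := h.anti hij
    have hij' : (i : ℕ) ≤ j := hij
    simp only
    split_ifs with h2 h3 h3
    · linarith
    · omega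
    · linarith
    · linarith
  · intro j
    have := h.nonneg j
    split_ifs <;> linarith
  · have e1 : TT hmn k t A = (∑ j, sig hmn A j • tens ((svdData hmn A).2.1 j)
        ((svdData hmn A).2.2 j)) + t • Top hmn k A := congrArg (· + t • Top hmn k A) h.eq
    rw [e1, Top, PW, low, Finset.sum_filter, Finset.smul_sum, ← Finset.sum_add_distrib]
    refine Finset.sum_congr rfl fun j _ => ?_
    by_cases hjk : (j : ℕ) < k
    · rw [if_pos hjk, if_pos hjk, add_smul]
    · rw [if_neg hjk, if_neg hjk, smul_zero, add_zero, add_zero]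

lemma KF_lipschitz {k : ℕ} (hk : k ≤ m) :
    LipschitzWith (NNReal.sqrt k) fun A : W m n => ∑ j ∈ low m k, sig hmn A j := by
  apply LipschitzWith.of_dist_le_mul
  have key : ∀ A B : W m n, ∑ j ∈ low m k, sig hmn A j - ∑ j ∈ low m k, sig hmn B j ≤
      Real.sqrt k * ‖A - B‖ := by
    intro A B
    have h1 := inner_Top_le hmn hk B A
    rw [← inner_Top_self hmn k A]
    have h2 : inner ℝ A (Top hmn k A) - inner ℝ B (Top hmn k A) ≤ Real.sqrt k * ‖A - B‖ := by
      rw [← inner_sub_left]
      refine (real_inner_le_norm _ _).trans ?_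
      rw [norm_Top hmn hk, mul_comm]
    linarith
  intro A B
  rw [dist_eq_norm, dist_eq_norm, Real.norm_eq_abs, abs_le]
  have h1 := key A B
  have h2 := key B A
  rw [norm_sub_rev] at h2
  have h3 : ((NNReal.sqrt k : NNReal) : ℝ) = Real.sqrt k := by simp
  rw [h3]
  constructor <;> linarith

lemma continuous_sig (j : Fin m) : Continuous fun A : W m n => sig hmn A j := by
  have hj : low m ((j : ℕ) + 1) = insert j (low m j) := by
    ext l
    simp only [mem_low, Finset.mem_insert, Fin.ext_iff]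
    omega
  have hnot : j ∉ low m j := by simp [mem_low]
  have h1 : (fun A : W m n => sig hmn A j) = fun A => (∑ i ∈ low m ((j : ℕ) + 1), sig hmn A i) -
      ∑ i ∈ low m (j : ℕ), sig hmn A i := by
    funext A
    rw [hj, Finset.sum_insert hnot]
    ring
  rw [h1]
  exact (KF_lipschitz hmn (by omega)).continuous.sub (KF_lipschitz hmn (by omega)).continuous

lemma sig_sum_sq (A : W m n) : ‖A‖ ^ 2 = ∑ j, sig hmn A j ^ 2 := by
  have h := svdData_spec hmn A
  have hou := orthonormal_iff_ite.mp h.ou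
  have hov := orthonormal_iff_ite.mp h.ov
  conv_lhs => rw [← real_inner_self_eq_norm_sq, h.eq]
  rw [sum_inner]
  refine Finset.sum_congr rfl fun j _ => ?_
  rw [inner_sum]
  simp only [inner_smul_left, inner_smul_right, conj_trivial, inner_tens, hou, hov]
  rw [Finset.sum_eq_single j]
  · simp; ring
  · intro b _ hb
    simp [Ne.symm hb]
  · simp

lemma sig_le_norm (A : W m n) (j : Fin m) : sig hmn A j ≤ ‖A‖ := by
  apply le_of_sq_le_sq _ (norm_nonneg _)
  rw [sig_sum_sq hmn A]
  exact Finset.single_le_sum (f := fun j => sig hmn A j ^ 2) (fun i _ => sq_nonneg _)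
    (Finset.mem_univ j)

end Top

end Pool.Agent.H992R2
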