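import Pool.Agent.H992R2.Expand
import Pool.Agent.H992R2.SVD
import Pool.Agent.H992R2.Gauss

/-! Small gaps between consecutive singular values of a Gaussian perturbation are unlikely. -/

set_option autoImplicit false
open MeasureTheory Measure Set ProbabilityTheory
open scoped ENNReal NNReal

namespace Pool.Agent.H992R2

variable {m n : ℕ}

/-- Gaussian measure on matrices. -/
noncomputable def GW (m n : ℕ) (v : ℝ≥0) : Measure (W m n) :=
  (volume : Measure (W m n)).withDensity (fun x => ENNReal.ofReal (gdens _ v x))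

theorem GW_eq_map {v : ℝ≥0} (hv : v ≠ 0) : GW m n v =
    (Measure.pi fun _ : Fin m × Fin n => gaussianReal 0 v).map (WithLp.toLp 2) :=
  (map_toLp_pi_gaussian _ hv).symm

theorem GW_prob {v : ℝ≥0} (hv : v ≠ 0) : IsProbabilityMeasure (GW m n v) := by
  rw [GW_eq_map hv]
  exact isProbabilityMeasure_map (PiLp.volume_preserving_toLp _).measurable.aemeasurable

/-- The inclusion of arrays in `W`. -/
def Phi (G : Fin m → Fin n → ℝ) : W m n := WithLp.toLp 2 fun p => G p.1 p.2

theorem Phi_meas : Measurable (Phi : (Fin m → Fin n → ℝ) → W m n) := by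
  have h1 : Measurable (fun G : Fin m → Fin n → ℝ => fun p : Fin m × Fin n => G p.1 p.2) := by
    fun_prop
  exact (PiLp.volume_preserving_toLp _).measurable.comp h1

theorem map_Phi {v : ℝ≥0} (hv : v ≠ 0) :
    (Measure.pi (fun _ : Fin m => Measure.pi (fun _ : Fin n => gaussianReal 0 v))).map Phi =
      GW m n v := by
  rw [GW_eq_map hv, ← map_uncurry_pi_pi, Measure.map_map
    (PiLp.volume_preserving_toLp _).measurable (by fun_prop)]
  rfl

theorem lintegral_sq_gaussian (v : ℝ≥0) :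
    ∫⁻ y, ENNReal.ofReal (y ^ 2) ∂(gaussianReal 0 v) = v := by
  have h1 : MemLp (fun y : ℝ => y) 2 (gaussianReal 0 v) := memLp_id_gaussianReal 2
  have h2 := h1.ofReal_variance_eq
  rw [evariance_eq_lintegral_ofReal] at h2
  have h3 : Var[fun y : ℝ => y; gaussianReal 0 v] = v := variance_id_gaussianReal
  have h4 : ∫ y, y ∂(gaussianReal 0 v) = 0 := by simp
  rw [h3, h4] at h2
  simp only [sub_zero, ENNReal.ofReal_coe_nnreal] at h2
  exact h2.symm

theorem tail_bound {v : ℝ≥0} (hv : v ≠ 0) {R : ℝ} (hR : 0 < R) :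
    GW m n v {G | R < ‖G‖} ≤ ENNReal.ofReal (m * n * v / R ^ 2) := by
  have hm : Measurable (WithLp.toLp 2 : (Fin m × Fin n → ℝ) → W m n) :=
    (PiLp.volume_preserving_toLp _).measurable
  have hset : MeasurableSet {G : W m n | R < ‖G‖} := measurableSet_lt measurable_const
    measurable_norm
  rw [GW_eq_map hv, Measure.map_apply hm hset]
  have h1 : (WithLp.toLp 2 : (Fin m × Fin n → ℝ) → W m n) ⁻¹' {G | R < ‖G‖} ⊆
      {x | ENNReal.ofReal (R ^ 2) ≤ ∑ p, ENNReal.ofReal (x p ^ 2)} := by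
    intro x hx
    simp only [mem_preimage, mem_ofPred_eq] at hx ⊢
    rw [← ENNReal.ofReal_sum_of_nonneg (fun _ _ => sq_nonneg _)]
    apply ENNReal.ofReal_le_ofReal
    have h2 : ‖(WithLp.toLp 2 x : W m n)‖ ^ 2 = ∑ p, x p ^ 2 := by
      rw [EuclideanSpace.norm_sq_eq]
      simp
    rw [← h2]
    exact pow_le_pow_left₀ hR.le hx.le 2
  refine (measure_mono h1).trans ?_
  have h0 : ENNReal.ofReal (R ^ 2) ≠ 0 := by
    simp only [ne_eq, ENNReal.ofReal_eq_zero, not_le]
    positivity
  have hms : Measurable fun x : Fin m × Fin n → ℝ => ∑ p, ENNReal.ofReal (x p ^ 2) :=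
    Finset.measurable_fun_sum _ fun p _ => by fun_prop
  refine (meas_ge_le_lintegral_div hms.aemeasurable h0 ENNReal.ofReal_ne_top).trans ?_
  have h3 : ∫⁻ x : Fin m × Fin n → ℝ, ∑ p, ENNReal.ofReal (x p ^ 2)
      ∂(Measure.pi fun _ : Fin m × Fin n => gaussianReal 0 v) = m * n * v := by
    rw [lintegral_finsetSum _ (fun p _ => by fun_prop)]
    have : ∀ p : Fin m × Fin n, ∫⁻ x : Fin m × Fin n → ℝ, ENNReal.ofReal (x p ^ 2)
        ∂(Measure.pi fun _ : Fin m × Fin n => gaussianReal 0 v) = v := by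
      intro p
      have hp := measurePreserving_eval (fun _ : Fin m × Fin n => gaussianReal 0 v) p
      rw [← lintegral_sq_gaussian v, ← hp.lintegral_comp (f := fun y => ENNReal.ofReal (y ^ 2))
        (by fun_prop)]
    simp [this]
  rw [h3, ENNReal.ofReal_div_of_pos (by positivity)]
  gcongr
  rw [ENNReal.ofReal_mul (by positivity), ENNReal.ofReal_mul (by positivity)]
  simp

/-- The gap between consecutive singular values. -/
noncomputable def gap (hmn : m ≤ n) {i : ℕ} (hi : i + 1 < m) (A : W m n) : ℝ :=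
  sig hmn A ⟨i, by omega⟩ - sig hmn A ⟨i + 1, hi⟩

lemma gap_continuous (hmn : m ≤ n) {i : ℕ} (hi : i + 1 < m) :
    Continuous (gap (n := n) hmn hi) :=
  (continuous_sig hmn _).sub (continuous_sig hmn _)

lemma gap_nonneg (hmn : m ≤ n) {i : ℕ} (hi : i + 1 < m) (A : W m n) : 0 ≤ gap hmn hi A := by
  have := (svdData_spec hmn A).anti (show (⟨i, by omega⟩ : Fin m) ≤ ⟨i + 1, hi⟩ by simp)
  unfold gap
  linarith

lemma gap_TT (hmn : m ≤ n) {i : ℕ} (hi : i + 1 < m) {t : ℝ} (ht : 0 ≤ t) (A : W m n) :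
    gap hmn hi (TT hmn (i + 1) t A) = gap hmn hi A + t := by
  unfold gap
  rw [sig_TT hmn ht]
  simp
  ring

theorem gdens_le {v : ℝ≥0} (hv : v ≠ 0) {G H : W m n} (h : ‖H‖ ^ 2 ≤ ‖G‖ ^ 2 + 2 * v) :
    gdens _ v G ≤ Real.exp 1 * gdens _ v H := by
  have hv' : (0 : ℝ) < v := by positivity
  unfold gdens
  have h1 : Real.exp (-‖G‖ ^ 2 / (2 * v)) ≤ Real.exp 1 * Real.exp (-‖H‖ ^ 2 / (2 * v)) := by
    rw [← Real.exp_add]
    apply Real.exp_le_exp.mpr
    rw [show (1 : ℝ) + -‖H‖ ^ 2 / (2 * v) = (2 * v - ‖H‖ ^ 2) / (2 * v) by field_simp; ring]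
    gcongr
    linarith
  calc _ ≤ ((Real.sqrt (2 * Real.pi * v))⁻¹) ^ (Fintype.card (Fin m × Fin n)) *
        (Real.exp 1 * Real.exp (-‖H‖ ^ 2 / (2 * v))) := by gcongr
    _ = _ := by ring

theorem gap_small (hmn : m ≤ n) {i : ℕ} (hi : i + 1 < m) (A0 : W m n) {v : ℝ≥0} (hv : v ≠ 0)
    {R t0 ε : ℝ} (_hR : 0 ≤ R) (ht0 : 0 < t0) (hε : 0 < ε)
    (hcond : 2 * R * t0 * n + t0 ^ 2 * n ^ 2 ≤ 2 * v) :
    GW m n v {G | gap hmn hi (A0 + G) ≤ ε ∧ ‖G‖ ≤ R} ≤ ENNReal.ofReal (24 * ε / t0) := by
  have hprob := GW_prob (m := m) (n := n) hv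
  set S : Set (W m n) := {G | gap hmn hi (A0 + G) ≤ ε ∧ ‖G‖ ≤ R} with hS
  rcases lt_or_ge t0 (2 * ε) with hlt | hge
  · calc GW m n v S ≤ 1 := prob_le_one
      _ ≤ ENNReal.ofReal (24 * ε / t0) := by
        rw [← ENNReal.ofReal_one]
        apply ENNReal.ofReal_le_ofReal
        rw [le_div_iff₀ ht0]
        linarith
  · set N : ℕ := ⌊t0 / (2 * ε)⌋₊ with hN
    have hy1 : 1 ≤ t0 / (2 * ε) := by rw [le_div_iff₀ (by positivity)]; linarith
    have hN1 : 1 ≤ N := Nat.le_floor (by simpa using hy1)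
    have hNle : (N : ℝ) ≤ t0 / (2 * ε) := Nat.floor_le (by positivity)
    have hNge : t0 / (2 * ε) / 2 ≤ N := by
      have h1 := Nat.lt_floor_add_one (t0 / (2 * ε))
      have h2 : (1 : ℝ) ≤ N := by exact_mod_cast hN1
      rw [← hN] at h1
      linarith
    let F : ℕ → Set (W m n) := fun j => {G | gap hmn hi (A0 + G) ∈
      Ico (2 * ε * (j + 1)) (2 * ε * (j + 2))}
    have hFm : ∀ j, MeasurableSet (F j) := fun j =>
      ((gap_continuous hmn hi).comp (continuous_const.add continuous_id)).measurable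
        measurableSet_Ico
    have hFd : Pairwise (Function.onFun Disjoint F) := by
      intro a b hab
      rw [Function.onFun, Set.disjoint_left]
      intro G ha hb
      simp only [F, mem_ofPred_eq, mem_Ico] at ha hb
      rcases lt_or_gt_of_ne hab with h | h
      · have : ((a : ℝ) + 2) ≤ b + 1 := by
          have : (a : ℝ) + 1 ≤ b := by exact_mod_cast h
          linarith
        nlinarith [ha.2, hb.1]
      · have : ((b : ℝ) + 2) ≤ a + 1 := by
          have : (b : ℝ) + 1 ≤ a := by exact_mod_cast h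
          linarith
        nlinarith [ha.1, hb.2]
    have hstep : ∀ j ∈ Finset.range N, GW m n v S ≤
        2 * ENNReal.ofReal (Real.exp 1) * GW m n v (F j) := by
      intro j hj
      have hjN : (j : ℝ) + 1 ≤ N := by exact_mod_cast Finset.mem_range.mp hj
      have htpos : 0 ≤ 2 * ε * ((j : ℝ) + 1) := by positivity
      have htle : 2 * ε * ((j : ℝ) + 1) ≤ t0 := by
        have h1 : (j : ℝ) + 1 ≤ t0 / (2 * ε) := hjN.trans hNle
        rw [le_div_iff₀ (by positivity)] at h1
        linarith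
      refine withDensity_le_of_expand volume
        ((continuous_gdens _ v).measurable.ennreal_ofReal) ?_ ?_
        (TT_antilipschitz hmn (k := i + 1) (by omega) htpos A0) (hFm j) ?_ ?_
      · intro x
        simp only [ne_eq, ENNReal.ofReal_eq_zero, not_le]
        exact gdens_pos _ hv x
      · intro x
        exact ENNReal.ofReal_ne_top
      · intro G hG
        simp only [F, mem_ofPred_eq, mem_Ico, add_sub_cancel]
        rw [gap_TT hmn hi htpos]
        have h1 := gap_nonneg hmn hi (A0 + G)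
        have h2 := hG.1
        constructor <;> nlinarith
      · intro G hG
        rw [← ENNReal.ofReal_mul (Real.exp_pos _).le]
        apply ENNReal.ofReal_le_ofReal
        apply gdens_le hv
        have h1 : TT hmn (i + 1) (2 * ε * ((j : ℝ) + 1)) (A0 + G) - A0 =
            G + (2 * ε * ((j : ℝ) + 1)) • Top hmn (i + 1) (A0 + G) := by
          simp only [TT]; module
        rw [h1]
        set t := 2 * ε * ((j : ℝ) + 1)
        have h2 : ‖G + t • Top hmn (i + 1) (A0 + G)‖ ≤ ‖G‖ + t0 * n := by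
          refine (norm_add_le _ _).trans ?_
          gcongr
          rw [norm_smul, Real.norm_of_nonneg htpos, norm_Top hmn (by omega)]
          have h3 : Real.sqrt ((i + 1 : ℕ) : ℝ) ≤ n := by
            rw [Real.sqrt_le_left (by positivity)]
            have h4 : ((i + 1 : ℕ) : ℝ) ≤ n := by exact_mod_cast (by omega)
            have h5 : (1 : ℝ) ≤ n := by exact_mod_cast (by omega : 1 ≤ n)
            nlinarith
          gcongr
        have h3 : ‖G + t • Top hmn (i + 1) (A0 + G)‖ ^ 2 ≤ (‖G‖ + t0 * n) ^ 2 :=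
          pow_le_pow_left₀ (norm_nonneg _) h2 2
        have h4 : ‖G‖ * (t0 * n) ≤ R * (t0 * n) := by
          apply mul_le_mul_of_nonneg_right hG.2; positivity
        nlinarith
    have hsum : (N : ℝ≥0∞) * GW m n v S ≤ 2 * ENNReal.ofReal (Real.exp 1) := by
      calc (N : ℝ≥0∞) * GW m n v S = ∑ j ∈ Finset.range N, GW m n v S := by simp
        _ ≤ ∑ j ∈ Finset.range N, 2 * ENNReal.ofReal (Real.exp 1) * GW m n v (F j) :=
            Finset.sum_le_sum hstep
        _ = 2 * ENNReal.ofReal (Real.exp 1) * ∑ j ∈ Finset.range N, GW m n v (F j) := by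
            rw [Finset.mul_sum]
        _ = 2 * ENNReal.ofReal (Real.exp 1) * GW m n v (⋃ j ∈ Finset.range N, F j) := by
            rw [measure_biUnion_finset (fun a _ b _ hab => hFd hab) (fun j _ => hFm j)]
        _ ≤ 2 * ENNReal.ofReal (Real.exp 1) * 1 := by gcongr; exact prob_le_one
        _ = _ := mul_one _
    have hNpos : (0 : ℝ) < N := by exact_mod_cast hN1
    have h1 : GW m n v S ≤ 2 * ENNReal.ofReal (Real.exp 1) / N := by
      rw [ENNReal.le_div_iff_mul_le (Or.inl (by positivity)) (Or.inl (by simp)), mul_comm]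
      exact hsum
    refine h1.trans ?_
    rw [show (2 : ℝ≥0∞) = ENNReal.ofReal 2 by simp, ← ENNReal.ofReal_mul (by norm_num),
      ← ENNReal.ofReal_natCast, ← ENNReal.ofReal_div_of_pos hNpos]
    apply ENNReal.ofReal_le_ofReal
    have he : Real.exp 1 ≤ 3 := by linarith [Real.exp_one_lt_d9]
    have h2 : t0 / (4 * ε) ≤ N := by
      refine le_trans (le_of_eq ?_) hNge
      field_simp
      norm_num
    rw [div_le_div_iff₀ hNpos ht0]
    rw [div_le_iff₀ (by positivity)] at h2
    nlinarith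

end Pool.Agent.H992R2
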