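import Pool.Agent.H992R2.Gap

set_option autoImplicit false
open MeasureTheory Measure Set ProbabilityTheory
open scoped ENNReal NNReal

namespace Pool.Agent.H992R2

theorem main_bound (m n : ℕ) (hmn : m ≤ n) (Abar : Matrix (Fin m) (Fin n) ℝ)
    (hA : (∑ i, ∑ j, Abar i j ^ 2) ≤ 1)
    (σ : ℝ≥0) (hσ : 0 < σ) (hσ1 : σ ≤ 1) (x : ℝ) (hx : 1 < x) :
    (Measure.pi (fun _ : Fin m => Measure.pi (fun _ : Fin n => gaussianReal 0 (σ ^ 2))))
      {G : Fin m → Fin n → ℝ | ∃ j k : Fin m, j ≠ k ∧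
        Real.sqrt ((Matrix.isHermitian_mul_conjTranspose_self (Abar + Matrix.of G)).eigenvalues k)
          ≤ Real.sqrt ((Matrix.isHermitian_mul_conjTranspose_self (Abar + Matrix.of G)).eigenvalues j) ∧
        Real.sqrt ((Matrix.isHermitian_mul_conjTranspose_self (Abar + Matrix.of G)).eigenvalues j)
          - Real.sqrt ((Matrix.isHermitian_mul_conjTranspose_self (Abar + Matrix.of G)).eigenvalues k)
          ≤ Real.sqrt ((Matrix.isHermitian_mul_conjTranspose_self (Abar + Matrix.of G)).eigenvalues k) / x}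
      ≤ ENNReal.ofReal (97 * (n : ℝ) ^ (4 : ℝ) * x ^ (-(1 / 2 : ℝ)) * (σ : ℝ) ^ (-(2 : ℝ))) := by
  rcases Nat.eq_zero_or_pos m with hm0 | hm0
  · subst hm0
    have : {G : Fin 0 → Fin n → ℝ | ∃ j k : Fin 0, j ≠ k ∧
        Real.sqrt ((Matrix.isHermitian_mul_conjTranspose_self (Abar + Matrix.of G)).eigenvalues k)
          ≤ Real.sqrt ((Matrix.isHermitian_mul_conjTranspose_self (Abar + Matrix.of G)).eigenvalues j) ∧
        Real.sqrt ((Matrix.isHermitian_mul_conjTranspose_self (Abar + Matrix.of G)).eigenvalues j)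
          - Real.sqrt ((Matrix.isHermitian_mul_conjTranspose_self (Abar + Matrix.of G)).eigenvalues k)
          ≤ Real.sqrt ((Matrix.isHermitian_mul_conjTranspose_self (Abar + Matrix.of G)).eigenvalues k) / x} = ∅ := by
      ext G
      simp only [mem_ofPred_eq, mem_empty_iff_false, iff_false]
      rintro ⟨j, -⟩
      exact j.elim0
    rw [this, measure_empty]
    exact zero_le
  have hn : 1 ≤ n := by omega
  have hn' : (1 : ℝ) ≤ n := by exact_mod_cast hn
  have hσ' : (0 : ℝ) < σ := hσ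
  have hσ1' : (σ : ℝ) ≤ 1 := hσ1
  have hv : σ ^ 2 ≠ 0 := by positivity
  have hx0 : 0 < x := by linarith
  set q : ℝ := Real.sqrt x with hq
  have hq1 : 1 ≤ q := by rw [hq]; exact Real.one_le_sqrt.mpr hx.le
  have hqq : q * q = x := Real.mul_self_sqrt hx0.le
  set R : ℝ := n * Real.sqrt q with hR
  have hRR : R ^ 2 = n ^ 2 * q := by
    rw [hR, mul_pow, Real.sq_sqrt (by linarith)]
  have hR1 : 1 ≤ R := by
    have : 1 ≤ Real.sqrt q := Real.one_le_sqrt.mpr hq1
    nlinarith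
  set A0 : W m n := WithLp.toLp 2 fun p => Abar p.1 p.2 with hA0
  have hA0n : ‖A0‖ ≤ 1 := by
    have h1 : ‖A0‖ ^ 2 ≤ 1 := by
      rw [EuclideanSpace.norm_sq_eq]
      simp only [hA0, Real.norm_eq_abs, sq_abs]
      rw [Fintype.sum_prod_type]
      exact hA
    nlinarith [norm_nonneg A0]
  set ε : ℝ := (1 + R) / x with hε
  have hε0 : 0 < ε := by positivity
  set t0 : ℝ := (σ : ℝ) ^ 2 / (2 * R * n) with ht0
  have ht00 : 0 < t0 := by positivity
  have hcond : 2 * R * t0 * n + t0 ^ 2 * n ^ 2 ≤ 2 * ((σ ^ 2 : ℝ≥0) : ℝ) := by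
    have h1 : 2 * R * t0 * n = (σ : ℝ) ^ 2 := by
      rw [ht0]; field_simp
    have h2 : t0 * n ≤ σ := by
      rw [ht0, div_mul_eq_mul_div, div_le_iff₀ (by positivity)]
      have h3 : (σ : ℝ) ^ 2 ≤ σ := by nlinarith
      have h4 : (σ : ℝ) ^ 2 * n ≤ σ * n := by gcongr
      have h5 : (σ : ℝ) * n ≤ σ * (2 * R * n) := by
        gcongr
        nlinarith
      linarith
    have h3 : t0 ^ 2 * n ^ 2 ≤ (σ : ℝ) ^ 2 := by
      rw [← mul_pow]
      exact pow_le_pow_left₀ (by positivity) h2 2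
    push_cast
    linarith
  -- the bad sets
  let B : Fin m → Set (W m n) := fun i => {G | ∃ hi : (i : ℕ) + 1 < m,
    gap hmn hi (A0 + G) ≤ ε ∧ ‖G‖ ≤ R}
  have hB : ∀ i, GW m n (σ ^ 2) (B i) ≤ ENNReal.ofReal (24 * ε / t0) := by
    intro i
    by_cases hi : (i : ℕ) + 1 < m
    · refine (measure_mono ?_).trans (gap_small hmn hi A0 hv (by linarith) ht00 hε0 hcond)
      rintro G ⟨_, hG⟩
      exact hG
    · have : B i = ∅ := by
        ext G
        simp only [B, mem_ofPred_eq, mem_empty_iff_false, iff_false]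
        rintro ⟨h, -⟩
        exact hi h
      rw [this, measure_empty]
      exact zero_le
  have hsub : {G : Fin m → Fin n → ℝ | ∃ j k : Fin m, j ≠ k ∧
        Real.sqrt ((Matrix.isHermitian_mul_conjTranspose_self (Abar + Matrix.of G)).eigenvalues k)
          ≤ Real.sqrt ((Matrix.isHermitian_mul_conjTranspose_self (Abar + Matrix.of G)).eigenvalues j) ∧
        Real.sqrt ((Matrix.isHermitian_mul_conjTranspose_self (Abar + Matrix.of G)).eigenvalues j)
          - Real.sqrt ((Matrix.isHermitian_mul_conjTranspose_self (Abar + Matrix.of G)).eigenvalues k)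
          ≤ Real.sqrt ((Matrix.isHermitian_mul_conjTranspose_self (Abar + Matrix.of G)).eigenvalues k) / x}
      ⊆ Phi ⁻¹' ({G : W m n | R < ‖G‖} ∪ ⋃ i, B i) := by
    rintro G ⟨j, k, hjk, hle, hgap⟩
    rw [mem_preimage]
    by_cases hG : R < ‖Phi G‖
    · exact Or.inl hG
    push Not at hG
    right
    obtain ⟨e, u, v, hsvd⟩ := exists_svd hmn (Abar + Matrix.of G)
    have hAG : (WithLp.toLp 2 fun p => (Abar + Matrix.of G) p.1 p.2 : W m n) = A0 + Phi G := by
      ext p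
      rfl
    rw [hAG] at hsvd
    have hsig := sig_eq hmn hsvd
    have hs : ∀ i, sig hmn (A0 + Phi G) i = Real.sqrt
        ((Matrix.isHermitian_mul_conjTranspose_self (Abar + Matrix.of G)).eigenvalues (e i)) :=
      fun i => congrFun hsig i
    obtain ⟨a, rfl⟩ := e.surjective j
    obtain ⟨b, rfl⟩ := e.surjective k
    rw [← hs a, ← hs b] at hgap
    rw [← hs a, ← hs b] at hle
    have hab : a ≠ b := fun h => hjk (by rw [h])
    have hanti : Antitone (sig hmn (A0 + Phi G)) := (svdData_spec hmn (A0 + Phi G)).anti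
    have hbn : sig hmn (A0 + Phi G) b ≤ 1 + R := by
      refine (sig_le_norm hmn _ b).trans ((norm_add_le _ _).trans ?_)
      linarith
    have hbe : sig hmn (A0 + Phi G) b / x ≤ ε := by
      rw [hε]; gcongr
    rcases lt_or_gt_of_ne hab with h | h
    · have ha1 : (a : ℕ) + 1 < m := by have := b.2; have : (a : ℕ) < b := h; omega
      refine mem_iUnion.mpr ⟨a, ha1, ?_, hG⟩
      have h1 : sig hmn (A0 + Phi G) b ≤ sig hmn (A0 + Phi G) ⟨(a : ℕ) + 1, ha1⟩ := by
        apply hanti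
        have : (a : ℕ) < b := h
        exact Fin.mk_le_of_le_val (by omega)
      have h2 : gap hmn ha1 (A0 + Phi G) = sig hmn (A0 + Phi G) a -
          sig hmn (A0 + Phi G) ⟨(a : ℕ) + 1, ha1⟩ := rfl
      rw [h2]
      linarith
    · have hb1 : (b : ℕ) + 1 < m := by have := a.2; have : (b : ℕ) < a := h; omega
      refine mem_iUnion.mpr ⟨b, hb1, ?_, hG⟩
      have h1 : sig hmn (A0 + Phi G) a ≤ sig hmn (A0 + Phi G) ⟨(b : ℕ) + 1, hb1⟩ := by
        apply hanti
        have : (b : ℕ) < a := h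
        exact Fin.mk_le_of_le_val (by omega)
      have h2 : gap hmn hb1 (A0 + Phi G) = sig hmn (A0 + Phi G) b -
          sig hmn (A0 + Phi G) ⟨(b : ℕ) + 1, hb1⟩ := rfl
      rw [h2]
      linarith
  refine (measure_mono hsub).trans ?_
  refine (le_map_apply Phi_meas.aemeasurable _).trans ?_
  rw [map_Phi hv]
  refine (measure_union_le _ _).trans ?_
  have h1 : GW m n (σ ^ 2) (⋃ i, B i) ≤ ENNReal.ofReal (m * (24 * ε / t0)) := by
    refine (measure_iUnion_fintype_le _ _).trans ?_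
    refine (Finset.sum_le_sum fun i _ => hB i).trans ?_
    rw [Finset.sum_const, Finset.card_univ, Fintype.card_fin, nsmul_eq_mul,
      ENNReal.ofReal_mul (by positivity)]
    simp
  refine (add_le_add (tail_bound hv (by linarith)) h1).trans ?_
  rw [← ENNReal.ofReal_add (by positivity) (by positivity)]
  apply ENNReal.ofReal_le_ofReal
  have hmn' : (m : ℝ) ≤ n := by exact_mod_cast hmn
  have hxr : x ^ (-(1 / 2 : ℝ)) = q⁻¹ := by
    rw [Real.rpow_neg hx0.le, ← Real.sqrt_eq_rpow]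
  have hσr : (σ : ℝ) ^ (-(2 : ℝ)) = ((σ : ℝ) ^ 2)⁻¹ := by
    rw [Real.rpow_neg hσ'.le]
    norm_num
  have hn4 : (n : ℝ) ^ (4 : ℝ) = (n : ℝ) ^ 4 := by norm_num
  rw [hxr, hσr, hn4]
  have hq0 : 0 < q := by linarith
  -- first term
  have e1 : (m : ℝ) * n * ((σ ^ 2 : ℝ≥0) : ℝ) / R ^ 2 ≤ 1 * (n : ℝ) ^ 4 * q⁻¹ * ((σ : ℝ) ^ 2)⁻¹ := by
    rw [hRR]
    push_cast
    have h2 : (m : ℝ) * n * (σ : ℝ) ^ 2 / (n ^ 2 * q) ≤ (n : ℝ) * n * 1 / (n ^ 2 * q) := by
      gcongr
      nlinarith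
    have h3 : (n : ℝ) * n * 1 / (n ^ 2 * q) = q⁻¹ := by field_simp
    rw [h3] at h2
    refine h2.trans ?_
    have h4 : 1 ≤ ((σ : ℝ) ^ 2)⁻¹ := by
      rw [one_le_inv₀ (by positivity)]
      nlinarith
    have h5 : (1 : ℝ) ≤ (n : ℝ) ^ 4 := one_le_pow₀ hn'
    calc q⁻¹ = 1 * 1 * q⁻¹ * 1 := by ring
      _ ≤ 1 * (n : ℝ) ^ 4 * q⁻¹ * ((σ : ℝ) ^ 2)⁻¹ := by gcongr
  have e2 : (m : ℝ) * (24 * ε / t0) ≤ 96 * (n : ℝ) ^ 4 * q⁻¹ * ((σ : ℝ) ^ 2)⁻¹ := by
    have h2 : ε ≤ 2 * R / x := by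
      rw [hε]; gcongr; linarith
    have h3 : (m : ℝ) * (24 * ε / t0) ≤ n * (24 * (2 * R / x) / t0) := by gcongr
    refine h3.trans (le_of_eq ?_)
    rw [ht0, ← hqq]
    field_simp
    rw [hRR]
    ring
  linarith

end Pool.Agent.H992R2
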