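import Pool.Agent.H992R2.KapIndep

/-!
Task KAP (second half) of the project MP_ecbc69_al: a Kaplansky-type theorem.
-/

set_option autoImplicit false

namespace Pool.Agent.H992R2.Kap

open Pool.Agent.H85R2.PI

/-- A maximal subfield of the endomorphism ring of a simple module. -/
theorem exists_maxfield (R M : Type) [Ring R] [AddCommGroup M] [Module R M]
    [IsSimpleModule R M] :
    ∃ (K : Type) (_ : Field K) (ι : K →+* Module.End R M),
      ∀ φ : Module.End R M, (∀ a, φ * ι a = ι a * φ) → ∃ a, ι a = φ := by
  classical
  obtain ⟨s, hs⟩ := zorn_subset {s : Set (Module.End R M) | ∀ a ∈ s, ∀ b ∈ s, a * b = b * a} (by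
    intro c hc hch
    refine ⟨⋃₀ c, ?_, fun t ht => Set.subset_sUnion_of_mem ht⟩
    intro a ha b hb
    obtain ⟨t, ht, hat⟩ := ha
    obtain ⟨u, hu, hbu⟩ := hb
    rcases hch.total ht hu with h | h
    · exact hc hu a (h hat) b hbu
    · exact hc ht a hat b (h hbu))
  have hcomm : ∀ a ∈ s, ∀ b ∈ s, a * b = b * a := hs.prop
  have hcent : ∀ φ : Module.End R M, (∀ a ∈ s, a * φ = φ * a) → φ ∈ s := by
    intro φ hφ
    have h1 : insert φ s ∈ {s : Set (Module.End R M) | ∀ a ∈ s, ∀ b ∈ s, a * b = b * a} := by
      intro a ha b hb
      rcases ha with rfl | ha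
      · rcases hb with rfl | hb
        · rfl
        · exact (hφ b hb).symm
      · rcases hb with rfl | hb
        · exact hφ a ha
        · exact hcomm a ha b hb
    exact hs.le_of_ge h1 (Set.subset_insert φ s) (Set.mem_insert φ s)
  let F : Subring (Module.End R M) := Subring.centralizer s
  have hFs : ∀ φ, φ ∈ F ↔ φ ∈ s := by
    intro φ
    constructor
    · intro h
      exact hcent φ (fun a ha => h a ha)
    · intro h a ha
      exact hcomm a ha φ h
  have hF : IsField F :=
    { exists_pair_ne := ⟨0, 1, by
        intro h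
        have h2 := congrArg Subtype.val h
        exact zero_ne_one h2⟩
      mul_comm := by
        intro a b
        apply Subtype.ext
        exact hcomm _ ((hFs _).1 a.2) _ ((hFs _).1 b.2)
      mul_inv_cancel := by
        intro a ha
        have ha' : (a : Module.End R M) ≠ 0 := fun h => ha (Subtype.ext h)
        refine ⟨⟨(a : Module.End R M)⁻¹, ?_⟩, ?_⟩
        · rw [hFs]
          apply hcent
          intro b hb
          have hab : b * (a : Module.End R M) = (a : Module.End R M) * b :=
            hcomm b hb _ ((hFs _).1 a.2)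
          have : Commute b (a : Module.End R M) := hab
          exact this.inv_right₀
        · apply Subtype.ext
          exact mul_inv_cancel₀ ha' }
  refine ⟨F, hF.toField, F.subtype, ?_⟩
  intro φ hφ
  have : φ ∈ F := by
    rw [hFs]
    apply hcent
    intro a ha
    exact (hφ ⟨a, (hFs a).2 ha⟩).symm
  exact ⟨⟨φ, this⟩, rfl⟩

/-- A multilinear map vanishing on tuples from a set vanishes on tuples from its span. -/
theorem ml_span {K V W : Type*} [CommRing K] [AddCommGroup V] [Module K V] [AddCommGroup W]
    [Module K W] {n : ℕ} (F : MultilinearMap K (fun _ : Fin n => V) W) (X : Set V)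
    (h : ∀ x : Fin n → V, (∀ i, x i ∈ X) → F x = 0) (x : Fin n → V)
    (hx : ∀ i, x i ∈ Submodule.span K X) : F x = 0 := by
  classical
  have key : ∀ s : Finset (Fin n), ∀ x : Fin n → V, (∀ i ∈ s, x i ∈ Submodule.span K X) →
      (∀ i ∉ s, x i ∈ X) → F x = 0 := by
    intro s
    induction s using Finset.induction_on with
    | empty => intro x _ h2; exact h x (fun i => h2 i (by simp))
    | insert a s ha ih =>
      intro x h1 h2
      have h3 : ∀ y ∈ Submodule.span K X, F (Function.update x a y) = 0 := by
        intro y hy
        induction hy using Submodule.span_induction with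
        | mem y hy =>
          apply ih
          · intro i hi
            rw [Function.update_of_ne (by rintro rfl; exact ha hi)]
            exact h1 i (Finset.mem_insert_of_mem hi)
          · intro i hi
            by_cases hia : i = a
            · subst hia; simpa using hy
            · rw [Function.update_of_ne hia]
              exact h2 i (by simp [hia, hi])
        | zero => exact F.map_update_zero x a
        | add y z _ _ h1 h2 => rw [F.map_update_add, h1, h2, add_zero]
        | smul r y _ h1 => rw [F.map_update_smul, h1, smul_zero]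
      have := h3 (x a) (h1 a (Finset.mem_insert_self a s))
      rwa [Function.update_eq_self] at this
  exact key Finset.univ x (fun i _ => hx i) (fun i hi => absurd (Finset.mem_univ i) hi)

/-- If the image of a ring homomorphism spans and the source satisfies a multilinear identity, then
tuples in the span satisfy it. -/
theorem pid_span {K R E : Type*} [CommRing K] [Ring R] [Ring E] [Algebra K E] (π : R →+* E)
    (D : ℕ) (c : Equiv.Perm (Fin D) → ℤ) (hR : PId R D c) (x : Fin D → E)
    (hx : ∀ i, x i ∈ Submodule.span K (Set.range π)) :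
    ∑ σ : Equiv.Perm (Fin D), ((c σ : ℤ) : E) * (List.ofFn (fun i => x (σ i))).prod = 0 := by
  classical
  let F : MultilinearMap K (fun _ : Fin D => E) E :=
    ∑ σ : Equiv.Perm (Fin D), (c σ) •
      (MultilinearMap.mkPiAlgebraFin K D E).domDomCongr σ
  have hF : ∀ x : Fin D → E, F x = ∑ σ : Equiv.Perm (Fin D),
      ((c σ : ℤ) : E) * (List.ofFn (fun i => x (σ i))).prod := by
    intro x
    simp only [F, _root_.sum_apply, _root_.smul_apply,
      MultilinearMap.domDomCongr_apply, MultilinearMap.mkPiAlgebraFin_apply, zsmul_eq_mul]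
  rw [← hF]
  refine ml_span F (Set.range π) ?_ x hx
  intro x hx
  choose y hy using hx
  rw [hF]
  have h1 := congrArg π (hR y)
  rw [map_sum, map_zero] at h1
  rw [← h1]
  refine Finset.sum_congr rfl fun σ _ => ?_
  rw [map_mul, map_intCast, map_list_prod, List.map_ofFn]
  congr 3
  funext i
  exact (hy (σ i)).symm

/-- The core of the Kaplansky-type theorem. -/
theorem kap_core {R M K : Type} [Ring R] [AddCommGroup M] [Module R M] [IsSimpleModule R M]
    [Field K] [Module K M] [SMulCommClass R K M] [SMulCommClass K R M]
    (hι : ∀ φ : Module.End R M, (∀ (a : K) (m : M), φ (a • m) = a • φ m) →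
      ∃ a : K, ∀ m, φ m = a • m)
    (D : ℕ) (c : Equiv.Perm (Fin D) → ℤ) (hc : c 1 = 1) (hR : PId R D c) :
    ∃ e ≤ D, ∃ ρ : R →+* Matrix (Fin e) (Fin e) K,
      (∀ r, ρ r = 0 ↔ ∀ m : M, r • m = 0) ∧ Submodule.span K (Set.range ρ) = ⊤ := by
  classical
  let π : R →+* Module.End K M := Module.toModuleEnd K (S := R) M
  have hπ : ∀ r m, π r m = r • m := fun r m => rfl
  let A : Subalgebra K (Module.End K M) := Algebra.adjoin K (Set.range π)
  have hAspan : ∀ a, a ∈ A ↔ a ∈ Submodule.span K (Set.range π) := by
    intro a
    have h1 : Subalgebra.toSubmodule A = Submodule.span K (Set.range π) := by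
      have h2 := Algebra.adjoin_eq_span (R := K) (s := Set.range π)
      have h3 : (Submonoid.closure (Set.range π) : Set (Module.End K M)) = Set.range π := by
        have := Submonoid.closure_eq (MonoidHom.mrange (π : R →* Module.End K M))
        have h4 : ((MonoidHom.mrange (π : R →* Module.End K M) : Submonoid (Module.End K M)) :
          Set (Module.End K M)) = Set.range π := rfl
        rw [h4] at this
        rw [this]
        exact h4
      rw [h3] at h2
      exact h2
    rw [← h1]
    exact Iff.rfl
  have hπA : ∀ r, π r ∈ A := fun r => Algebra.subset_adjoin ⟨r, rfl⟩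
  have hApid : PId A D c := by
    intro x
    apply Subtype.ext
    have h1 := pid_span (K := K) π D c hR (fun i => (x i : Module.End K M))
      (fun i => (hAspan _).1 (x i).2)
    change A.val _ = A.val 0
    rw [map_sum, map_zero, ← h1]
    refine Finset.sum_congr rfl fun σ _ => ?_
    rw [map_mul, map_intCast, map_list_prod, List.map_ofFn]
    rfl
  have smulA : ∀ (a : A) (m : M), a • m = (a : Module.End K M) m := fun a m => rfl
  have hsimpA : IsSimpleModule A M := by
    rw [isSimpleModule_iff_toSpanSingleton_surjective]
    obtain ⟨hn, hs⟩ := isSimpleModule_iff_toSpanSingleton_surjective.1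
      (inferInstance : IsSimpleModule R M)
    refine ⟨hn, fun x hx y => ?_⟩
    obtain ⟨r, hr⟩ := hs x hx y
    exact ⟨⟨π r, hπA r⟩, hr⟩
  have dens : ∀ f : M →ₗ[K] M, ∀ s : Finset M, ∃ a : A, ∀ m ∈ s, a • m = f m := by
    intro f s
    have hcomm : ∀ (φ : Module.End A M) (m : M), f (φ m) = φ (f m) := by
      intro φ m
      let ψ : Module.End R M :=
        { toFun := φ
          map_add' := φ.map_add
          map_smul' := fun r m => φ.map_smul (⟨π r, hπA r⟩ : A) m }
      have hψ : ∀ (a : K) (m : M), ψ (a • m) = a • ψ m := fun a m => by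
        have := φ.map_smul (algebraMap K A a) m
        exact this
      obtain ⟨a, ha⟩ := hι ψ hψ
      have ha' : ∀ m, φ m = a • m := ha
      rw [ha', ha', map_smul]
    let g : Module.End (Module.End A M) M :=
      { toFun := f
        map_add' := f.map_add
        map_smul' := fun φ m => hcomm φ m }
    obtain ⟨a, ha⟩ := jacobson_density (R := A) g s
    exact ⟨a, fun m hm => (ha m hm).symm⟩
  have hrank : Module.rank K M ≤ D := by
    apply rank_le
    intro s hs
    by_contra hlt
    have hlt' : D + 1 ≤ s.card := by omega
    refine no_indep dens D c hc hApid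
      (fun i => ((s.equivFin.symm (Fin.castLE hlt' i) : s) : M)) ?_
    refine LinearIndependent.comp hs (fun i => s.equivFin.symm (Fin.castLE hlt' i)) ?_
    intro i j hij
    have := s.equivFin.symm.injective hij
    exact Fin.castLE_injective hlt' this
  have hfin : Module.Finite K M := by
    rw [← Module.rank_lt_aleph0_iff]
    exact lt_of_le_of_lt hrank (Cardinal.natCast_lt_aleph0)
  have hfinrank : Module.finrank K M ≤ D := Module.finrank_le_of_rank_le hrank
  let b := Module.finBasis K M
  let T := LinearMap.toMatrixAlgEquiv b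
  have hAtop : ∀ f : Module.End K M, f ∈ Submodule.span K (Set.range π) := by
    intro f
    obtain ⟨a, ha⟩ := dens f (Finset.univ.image b)
    have : (a : Module.End K M) = f := by
      apply b.ext
      intro i
      exact ha (b i) (Finset.mem_image_of_mem _ (Finset.mem_univ _))
    rw [← this]
    exact (hAspan _).1 a.2
  refine ⟨Module.finrank K M, hfinrank, (T : _ →+* _).comp π, ?_, ?_⟩
  · intro r
    have h1 : ((T : _ →+* Matrix (Fin (Module.finrank K M)) (Fin (Module.finrank K M)) K).comp π) r
      = T (π r) := rfl
    rw [h1, map_eq_zero_iff T T.injective]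
    constructor
    · intro h m
      rw [← hπ, h]; rfl
    · intro h
      ext m
      rw [hπ, h]; rfl
  · rw [eq_top_iff]
    intro x _
    obtain ⟨f, rfl⟩ := T.surjective x
    have h1 := Submodule.mem_map_of_mem (f := T.toLinearMap) (hAtop f)
    rw [Submodule.map_span] at h1
    have h2 : T.toLinearMap '' Set.range π = Set.range ((T : _ →+* _).comp π) := by
      rw [← Set.range_comp]; rfl
    rw [h2] at h1
    exact h1

theorem Cls_of_PId (R : Type) [Ring R] (D : ℕ) (c : Equiv.Perm (Fin D) → ℤ) (hc : c 1 = 1)
    (hR : PId R D c) : Cls R D := by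
  intro L hL
  have hsimp : IsSimpleModule R (R ⧸ L) := isSimpleModule_iff_isCoatom.2 hL
  obtain ⟨K, fK, ι, hι⟩ := exists_maxfield R (R ⧸ L)
  let _ : Module K (R ⧸ L) := Module.compHom (R ⧸ L) ι
  have smul_def : ∀ (a : K) (m : R ⧸ L), a • m = ι a m := fun a m => rfl
  have h1 : SMulCommClass R K (R ⧸ L) := ⟨fun r a m => by rw [smul_def, smul_def, map_smul]⟩
  have h2 : SMulCommClass K R (R ⧸ L) := SMulCommClass.symm R K (R ⧸ L)
  obtain ⟨e, he, ρ, hρ⟩ := kap_core (R := R) (M := R ⧸ L) (K := K) (by
    intro φ hφ
    obtain ⟨a, ha⟩ := hι φ (fun a => LinearMap.ext fun m => hφ a m)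
    exact ⟨a, fun m => by rw [smul_def, ha]⟩) D c hc hR
  exact ⟨e, he, K, fK, ρ, hρ⟩

end Pool.Agent.H992R2.Kap
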