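import Pool.Agent.H992R2.Signs

/-! Symmetric lattice mixtures of Gaussians: characteristic function, moments, density. -/

set_option autoImplicit false
open MeasureTheory ProbabilityTheory Filter Topology Set
open scoped ENNReal NNReal

namespace Pool.Agent.H992R2.Mix

open Pool.Agent.H992R2

theorem gauss_int (v : ℝ≥0) (k : ℕ) : Integrable (fun x : ℝ => |x| ^ k) (gaussianReal 0 v) := by
  rcases Nat.eq_zero_or_pos k with rfl | hk
  · simp
  · have h := memLp_id_gaussianReal' (μ := 0) (v := v) (k : ℝ≥0∞) (by simp)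
    have h2 := h.integrable_norm_pow hk.ne'
    simpa using h2

theorem gauss_int' (v : ℝ≥0) (k : ℕ) : Integrable (fun x : ℝ => x ^ k) (gaussianReal 0 v) := by
  refine (gauss_int v k).mono (by fun_prop) (Filter.Eventually.of_forall (fun x => ?_))
  simp

theorem gauss_m1 (v : ℝ≥0) : ∫ x, x ∂(gaussianReal 0 v) = 0 := by simp

theorem gauss_m2 (v : ℝ≥0) : ∫ x, x ^ 2 ∂(gaussianReal 0 v) = v := by
  have h := variance_fun_id_gaussianReal (μ := 0) (v := v)
  rw [variance_eq_integral measurable_id'.aemeasurable] at h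
  simpa using h

theorem gauss_m3 (v : ℝ≥0) : ∫ x, x ^ 3 ∂(gaussianReal 0 v) = 0 := by
  have h1 : (gaussianReal 0 v).map (fun x => -x) = gaussianReal 0 v := by
    rw [gaussianReal_map_neg]; simp
  have h2 : ∫ x, x ^ 3 ∂(gaussianReal 0 v) = ∫ x, (-x) ^ 3 ∂(gaussianReal 0 v) := by
    conv_lhs => rw [← h1]
    rw [integral_map (by fun_prop) (by fun_prop)]
  have h3 : ∫ x, (-x) ^ 3 ∂(gaussianReal 0 v) = - ∫ x, x ^ 3 ∂(gaussianReal 0 v) := by
    rw [← integral_neg]
    congr 1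
    funext x
    ring
  linarith

theorem gauss_m4 (v : ℝ≥0) : ∫ x, x ^ 4 ∂(gaussianReal 0 v) = 3 * (v : ℝ) ^ 2 := by
  have h := iteratedDeriv_mgf_zero (X := fun x : ℝ => x) (μ := gaussianReal 0 v) (by simp) 4
  have h0 : (gaussianReal 0 v)[(fun x : ℝ => x) ^ 4] = ∫ x, x ^ 4 ∂(gaussianReal 0 v) := rfl
  rw [h0] at h
  rw [← h, mgf_fun_id_gaussianReal]
  have e0 : (fun t : ℝ => Real.exp (0 * t + v * t ^ 2 / 2)) = fun t : ℝ => Real.exp (v * t ^ 2 / 2) := by
    funext t; rw [zero_mul, zero_add]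
  rw [e0]
  have d0 : ∀ t : ℝ, HasDerivAt (fun t : ℝ => Real.exp (v * t ^ 2 / 2))
      (v * t * Real.exp (v * t ^ 2 / 2)) t := by
    intro t
    have h1 : HasDerivAt (fun t : ℝ => (v : ℝ) * t ^ 2 / 2) (v * t) t := by
      have := ((hasDerivAt_pow 2 t).const_mul (v : ℝ)).div_const 2
      convert! this using 1
      push_cast
      ring
    have h2 := h1.exp
    convert! h2 using 1
    ring
  have e1 : deriv (fun t : ℝ => Real.exp (v * t ^ 2 / 2)) =
      fun t : ℝ => v * t * Real.exp (v * t ^ 2 / 2) := funext fun t => (d0 t).deriv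
  have e2 : deriv (fun t : ℝ => v * t * Real.exp (v * t ^ 2 / 2)) =
      fun t : ℝ => ((v : ℝ) + v ^ 2 * t ^ 2) * Real.exp (v * t ^ 2 / 2) := by
    funext t
    have h1 : HasDerivAt (fun t : ℝ => (v : ℝ) * t) v t := by
      simpa using (hasDerivAt_id t).const_mul (v : ℝ)
    have h2 := (h1.mul (d0 t)).deriv
    refine Eq.trans h2 ?_
    ring
  have e3 : deriv (fun t : ℝ => ((v : ℝ) + v ^ 2 * t ^ 2) * Real.exp (v * t ^ 2 / 2)) =
      fun t : ℝ => (3 * (v : ℝ) ^ 2 * t + v ^ 3 * t ^ 3) * Real.exp (v * t ^ 2 / 2) := by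
    funext t
    have h1 : HasDerivAt (fun t : ℝ => (v : ℝ) + v ^ 2 * t ^ 2) (v ^ 2 * (2 * t)) t := by
      have := ((hasDerivAt_pow 2 t).const_mul ((v : ℝ) ^ 2)).const_add (v : ℝ)
      simpa using this
    have h2 := (h1.mul (d0 t)).deriv
    refine Eq.trans h2 ?_
    ring
  have e4 : deriv (fun t : ℝ => (3 * (v : ℝ) ^ 2 * t + v ^ 3 * t ^ 3) * Real.exp (v * t ^ 2 / 2)) 0 =
      3 * (v : ℝ) ^ 2 := by
    have h1 : HasDerivAt (fun t : ℝ => 3 * (v : ℝ) ^ 2 * t + v ^ 3 * t ^ 3)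
        (3 * (v : ℝ) ^ 2 + v ^ 3 * (3 * 0 ^ 2)) 0 := by
      have a1 : HasDerivAt (fun t : ℝ => 3 * (v : ℝ) ^ 2 * t) (3 * (v : ℝ) ^ 2) 0 := by
        simpa using (hasDerivAt_id (0 : ℝ)).const_mul (3 * (v : ℝ) ^ 2)
      have a2 : HasDerivAt (fun t : ℝ => (v : ℝ) ^ 3 * t ^ 3) (v ^ 3 * (3 * 0 ^ 2)) 0 := by
        have := (hasDerivAt_pow 3 (0 : ℝ)).const_mul ((v : ℝ) ^ 3)
        simpa using this
      exact a1.add a2
    have h2 := (h1.mul (d0 0)).deriv
    refine Eq.trans h2 ?_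
    simp
  rw [iteratedDeriv_succ, iteratedDeriv_succ, iteratedDeriv_succ, iteratedDeriv_one, e1, e2, e3, e4]

theorem shift_integral (c : ℝ) (v : ℝ≥0) (g : ℝ → ℝ) (hg : Measurable g) :
    ∫ x, g x ∂(gaussianReal c v) = ∫ x, g (x + c) ∂(gaussianReal 0 v) := by
  have h1 : (gaussianReal 0 v).map (fun x => x + c) = gaussianReal c v := by
    rw [gaussianReal_map_add_const]; simp
  rw [← h1, integral_map (by fun_prop) hg.aestronglyMeasurable]

theorem shift_integrable (c : ℝ) (v : ℝ≥0) (k : ℕ) :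
    Integrable (fun x : ℝ => x ^ k) (gaussianReal c v) := by
  have h := memLp_id_gaussianReal' (μ := c) (v := v) (k : ℝ≥0∞) (by simp)
  rcases Nat.eq_zero_or_pos k with rfl | hk
  · simp
  · have h2 := h.integrable_norm_pow hk.ne'
    refine h2.mono (by fun_prop) (Filter.Eventually.of_forall (fun x => ?_))
    simp

theorem m1 (c : ℝ) (v : ℝ≥0) : ∫ x, x ∂(gaussianReal c v) = c := by simp

theorem m2 (c : ℝ) (v : ℝ≥0) : ∫ x, x ^ 2 ∂(gaussianReal c v) = c ^ 2 + v := by
  rw [shift_integral c v _ (by fun_prop)]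
  have h : ∀ x : ℝ, (x + c) ^ 2 = x ^ 2 + 2 * c * x + c ^ 2 := fun x => by ring
  simp_rw [h]
  have i1 := gauss_int' v 1
  have i2 := gauss_int' v 2
  simp only [pow_one] at i1
  have j : Integrable (fun x : ℝ => x ^ 2 + 2 * c * x) (gaussianReal 0 v) :=
    i2.add (i1.const_mul _)
  rw [integral_add j (integrable_const _),
    integral_add i2 (i1.const_mul _), integral_const_mul, gauss_m1, gauss_m2]
  simp
  ring

theorem m4 (c : ℝ) (v : ℝ≥0) : ∫ x, x ^ 4 ∂(gaussianReal c v) =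
    c ^ 4 + 6 * c ^ 2 * v + 3 * (v : ℝ) ^ 2 := by
  rw [shift_integral c v _ (by fun_prop)]
  have h : ∀ x : ℝ, (x + c) ^ 4 = x ^ 4 + (4 * c * x ^ 3 + (6 * c ^ 2 * x ^ 2 +
      (4 * c ^ 3 * x + c ^ 4))) := fun x => by ring
  simp_rw [h]
  have i1 := gauss_int' v 1
  have i2 := gauss_int' v 2
  have i3 := gauss_int' v 3
  have i4 := gauss_int' v 4
  simp only [pow_one] at i1
  have j1 : Integrable (fun x : ℝ => 4 * c ^ 3 * x + c ^ 4) (gaussianReal 0 v) :=
    (i1.const_mul _).add (integrable_const _)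
  have j2 : Integrable (fun x : ℝ => 6 * c ^ 2 * x ^ 2 + (4 * c ^ 3 * x + c ^ 4))
    (gaussianReal 0 v) := (i2.const_mul _).add j1
  have j3 : Integrable (fun x : ℝ => 4 * c * x ^ 3 + (6 * c ^ 2 * x ^ 2 + (4 * c ^ 3 * x + c ^ 4)))
    (gaussianReal 0 v) := (i3.const_mul _).add j2
  rw [integral_add i4 j3, integral_add (i3.const_mul _) j2, integral_add (i2.const_mul _) j1,
    integral_add (i1.const_mul _) (integrable_const _), integral_const_mul, integral_const_mul,
    integral_const_mul, gauss_m1, gauss_m2, gauss_m3, gauss_m4]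
  simp
  ring

/-- The centres. -/
noncomputable def cn (a : ℝ) (n : ℕ) (b : Fin n → Bool) : ℝ := ∑ i, (a / Real.sqrt n) * sg (b i)

/-- The mixture. -/
noncomputable def mixM (a : ℝ) (v : ℝ≥0) (n : ℕ) : Measure ℝ :=
  ∑ b : Fin n → Bool, ENNReal.ofReal ((2 ^ n)⁻¹) • gaussianReal (cn a n b) v

/-- Its density. -/
noncomputable def mixD (a : ℝ) (v : ℝ≥0) (n : ℕ) (x : ℝ) : ℝ :=
  (2 ^ n)⁻¹ * ∑ b : Fin n → Bool, gaussianPDFReal (cn a n b) v x

/-- The derivative of the density. -/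
noncomputable def mixD' (a : ℝ) (v : ℝ≥0) (n : ℕ) (x : ℝ) : ℝ :=
  (2 ^ n)⁻¹ * ∑ b : Fin n → Bool, -((x - cn a n b) / v) * gaussianPDFReal (cn a n b) v x

theorem mixM_prob (a : ℝ) (v : ℝ≥0) (n : ℕ) : IsProbabilityMeasure (mixM a v n) := by
  constructor
  simp only [mixM, Measure.coe_finsetSum, Finset.sum_apply, Measure.smul_apply, measure_univ,
    smul_eq_mul, mul_one, Finset.sum_const, Finset.card_univ, Fintype.card_fun, Fintype.card_bool,
    Fintype.card_fin, nsmul_eq_mul]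
  rw [← ENNReal.ofReal_natCast, ← ENNReal.ofReal_mul (by positivity)]
  push_cast
  rw [mul_inv_cancel₀ (by positivity), ENNReal.ofReal_one]

theorem mixM_eq (a : ℝ) {v : ℝ≥0} (hv : v ≠ 0) (n : ℕ) :
    mixM a v n = volume.withDensity fun x => ENNReal.ofReal (mixD a v n x) := by
  ext s hs
  rw [withDensity_apply _ hs]
  simp only [mixM, Measure.coe_finsetSum, Finset.sum_apply, Measure.smul_apply, smul_eq_mul]
  have h1 : ∀ x, ENNReal.ofReal (mixD a v n x) = ∑ b : Fin n → Bool,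
      ENNReal.ofReal ((2 ^ n)⁻¹) * gaussianPDF (cn a n b) v x := by
    intro x
    rw [mixD, Finset.mul_sum, ENNReal.ofReal_sum_of_nonneg
      (fun b _ => mul_nonneg (by positivity) (gaussianPDFReal_nonneg _ _ _))]
    refine Finset.sum_congr rfl fun b _ => ?_
    rw [ENNReal.ofReal_mul (by positivity)]
    rfl
  simp_rw [h1]
  rw [lintegral_finsetSum _ fun b _ => (measurable_gaussianPDF _ _).const_mul _]
  refine Finset.sum_congr rfl fun b _ => ?_
  rw [lintegral_const_mul _ (measurable_gaussianPDF _ _), gaussianReal_of_var_ne_zero _ hv,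
    withDensity_apply _ hs]

theorem integral_mixM (a : ℝ) (v : ℝ≥0) (n : ℕ) {E : Type*} [NormedAddCommGroup E]
    [NormedSpace ℝ E] {g : ℝ → E} (hg : ∀ b, Integrable g (gaussianReal (cn a n b) v)) :
    ∫ x, g x ∂(mixM a v n) = ((2 : ℝ) ^ n)⁻¹ • ∑ b : Fin n → Bool,
      ∫ x, g x ∂(gaussianReal (cn a n b) v) := by
  rw [mixM, integral_finsetSum_measure]
  · rw [Finset.smul_sum]
    refine Finset.sum_congr rfl fun b _ => ?_
    rw [integral_smul_measure, ENNReal.toReal_ofReal (by positivity)]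
  · intro b _
    exact (hg b).smul_measure ENNReal.ofReal_ne_top

theorem integrable_mixM (a : ℝ) (v : ℝ≥0) (n : ℕ) {E : Type*} [NormedAddCommGroup E]
    {g : ℝ → E} (hg : ∀ b, Integrable g (gaussianReal (cn a n b) v)) :
    Integrable g (mixM a v n) := by
  rw [mixM, integrable_finsetSum_measure]
  intro b _
  exact (hg b).smul_measure ENNReal.ofReal_ne_top

theorem charFun_mixM (a : ℝ) (v : ℝ≥0) (n : ℕ) (t : ℝ) :
    charFun (mixM a v n) t = Complex.exp (-(v * t ^ 2 / 2)) *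
      (Complex.cos (t * (a / Real.sqrt n))) ^ n := by
  have h0 : ∀ μ : Measure ℝ, charFun μ t = ∫ x, Complex.exp (t * x * Complex.I) ∂μ := by
    intro μ
    rw [charFun_apply_real]
  rw [h0, integral_mixM a v n]
  · have h1 : ∀ b : Fin n → Bool, ∫ x, Complex.exp (t * x * Complex.I)
        ∂(gaussianReal (cn a n b) v) = Complex.exp (-(v * t ^ 2 / 2)) *
        ∏ i, Complex.exp (t * (a / Real.sqrt n) * sg (b i) * Complex.I) := by
      intro b
      rw [← h0, charFun_gaussianReal, ← Complex.exp_sum, ← Complex.exp_add]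
      congr 1
      simp only [cn]
      push_cast
      rw [Finset.mul_sum, Finset.sum_mul]
      rw [sub_eq_add_neg, add_comm]
      congr 1
      refine Finset.sum_congr rfl fun i _ => by ring
    simp_rw [h1]
    rw [← Finset.mul_sum]
    have h2 : ∑ b : Fin n → Bool, ∏ i, Complex.exp (t * (a / Real.sqrt n) * sg (b i) * Complex.I) =
        ∏ _i : Fin n, ∑ c : Bool, Complex.exp (t * (a / Real.sqrt n) * sg c * Complex.I) := by
      rw [Finset.prod_univ_sum, Fintype.piFinset_univ]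
    rw [h2, Finset.prod_const, Finset.card_univ, Fintype.card_fin, Fintype.sum_bool]
    have h3 : Complex.exp (t * (a / Real.sqrt n) * sg true * Complex.I) +
        Complex.exp (t * (a / Real.sqrt n) * sg false * Complex.I) =
        2 * Complex.cos (t * (a / Real.sqrt n)) := by
      rw [Complex.two_cos]
      simp [sg]
    rw [h3, mul_pow, Complex.real_smul]
    push_cast
    field_simp
  · intro b
    apply Integrable.of_bound (C := 1)
    · fun_prop
    · refine Filter.Eventually.of_forall fun x => ?_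
      have : (t : ℂ) * x * Complex.I = ((t * x : ℝ) : ℂ) * Complex.I := by push_cast; ring
      rw [this, Complex.norm_exp_ofReal_mul_I]

end Pool.Agent.H992R2.Mix
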